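import Pool.Agent.X183.NZ.Dstep
import Pool.Agent.X183.ZM.Units

/-!
# The families of units of the Gaussian and the Lipschitz integers
-/

set_option autoImplicit false

open Module
open scoped Quaternion

namespace Pool.Agent.X183.NZ

open Pool.Agent.X183.ZM

theorem fam_gauss : Fam 2 1 ![gI] := by
  refine ⟨fun s => ?_, ?_⟩
  · fin_cases s
    exact gI_sq
  intro V _ _ _ W P hW hinv hsq _
  obtain ⟨w, hw, hw0⟩ := Submodule.exists_mem_ne_zero_of_ne_bot hW
  have hII : P 0 (P 0 w) = -w := hsq 0 w hw
  have hli : LinearIndependent ℝ ![(⟨w, hw⟩ : W), ⟨P 0 w, hinv _ _ hw⟩] := by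
    rw [Fintype.linearIndependent_iff]
    intro g hg
    have h1 := congrArg Subtype.val hg
    simp only [Fin.sum_univ_two, Matrix.cons_val_zero, Matrix.cons_val_one, Submodule.coe_add,
      Submodule.coe_smul, Submodule.coe_zero] at h1
    set a := g 0 with ha
    set b := g 1 with hb
    have h2 : P 0 (a • w + b • P 0 w) = 0 := by rw [h1, map_zero]
    rw [map_add, map_smul, map_smul, hII] at h2
    have h3 : (a * a + b * b) • w = 0 := by
      have : (a * a + b * b) • w = a • (a • w + b • P 0 w) - b • (a • P 0 w + b • -w) := by module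
      rw [this, h1, h2, smul_zero, smul_zero, sub_zero]
    have h4 := (smul_eq_zero.1 h3).resolve_right hw0
    have h5 : a = 0 := by nlinarith [mul_self_nonneg a, mul_self_nonneg b]
    have h6 : b = 0 := by nlinarith [mul_self_nonneg a, mul_self_nonneg b]
    intro i
    fin_cases i
    · exact h5
    · exact h6
  have := hli.fintype_card_le_finrank
  simpa using this

theorem qJ_qI' : qJ * qI = -(qI * qJ) := by
  rw [qJ_qI, neg_one_mul]

theorem fam_quat : Fam 4 2 ![qI, qJ] := by
  refine ⟨fun s => ?_, ?_⟩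
  · fin_cases s
    · exact qI_sq
    · exact qJ_sq
  intro V _ _ _ W P hW hinv hsq hanti
  obtain ⟨w, hw, hw0⟩ := Submodule.exists_mem_ne_zero_of_ne_bot hW
  have hII : ∀ w ∈ W, P 0 (P 0 w) = -w := fun w hw => hsq 0 w hw
  have hJJ : ∀ w ∈ W, P 1 (P 1 w) = -w := fun w hw => hsq 1 w hw
  have hJI : ∀ w ∈ W, P 1 (P 0 w) = -P 0 (P 1 w) := fun w hw => hanti 1 0 qJ_qI' w hw
  have hli : LinearIndependent ℝ ![(⟨w, hw⟩ : W), ⟨P 0 w, hinv _ _ hw⟩, ⟨P 1 w, hinv _ _ hw⟩,
      ⟨P 0 (P 1 w), hinv _ _ (hinv _ _ hw)⟩] := by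
    rw [Fintype.linearIndependent_iff]
    intro g hg
    have h1 := congrArg Subtype.val hg
    simp only [Fin.sum_univ_four, Matrix.cons_val_zero, Matrix.cons_val_one, Matrix.cons_val,
      Submodule.coe_add, Submodule.coe_smul, Submodule.coe_zero] at h1
    set a := g 0 with ha
    set b := g 1 with hb
    set c := g 2 with hc
    set d := g 3 with hd
    have e1 := hII w hw
    have e2 := hJJ w hw
    have e3 := hJI w hw
    have e4 := hII _ (hinv 1 w hw)
    have e5 : P 1 (P 0 (P 1 w)) = P 0 w := by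
      rw [hJI _ (hinv 1 w hw), e2, map_neg, neg_neg]
    have h2 : P 0 (a • w + b • P 0 w + c • P 1 w + d • P 0 (P 1 w)) = 0 := by
      rw [h1, map_zero]
    have h3 : P 1 (a • w + b • P 0 w + c • P 1 w + d • P 0 (P 1 w)) = 0 := by
      rw [h1, map_zero]
    have h4 : P 0 (P 1 (a • w + b • P 0 w + c • P 1 w + d • P 0 (P 1 w))) = 0 := by
      rw [h1, map_zero, map_zero]
    simp only [map_add, map_smul, map_neg, smul_neg, e1, e2, e3, e4, e5] at h2 h3 h4
    have h5 : (a * a + b * b + c * c + d * d) • w = 0 := by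
      have : (a * a + b * b + c * c + d * d) • w =
          a • (a • w + b • P 0 w + c • P 1 w + d • P 0 (P 1 w)) -
          b • (a • P 0 w + -(b • w) + c • P 0 (P 1 w) + -(d • P 1 w)) -
          c • (a • P 1 w + -(b • P 0 (P 1 w)) + -(c • w) + d • P 0 w) -
          d • (a • P 0 (P 1 w) + b • P 1 w + -(c • P 0 w) + -(d • w)) := by module
      rw [this, h1, h2, h3]
      have h4' : a • P 0 (P 1 w) + b • P 1 w + -(c • P 0 w) + -(d • w) = 0 := by
        rw [← h4]; abel
      rw [h4']
      simp
    have h6 := (smul_eq_zero.1 h5).resolve_right hw0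
    have k1 : a = 0 := by
      nlinarith [mul_self_nonneg a, mul_self_nonneg b, mul_self_nonneg c, mul_self_nonneg d]
    have k2 : b = 0 := by
      nlinarith [mul_self_nonneg a, mul_self_nonneg b, mul_self_nonneg c, mul_self_nonneg d]
    have k3 : c = 0 := by
      nlinarith [mul_self_nonneg a, mul_self_nonneg b, mul_self_nonneg c, mul_self_nonneg d]
    have k4 : d = 0 := by
      nlinarith [mul_self_nonneg a, mul_self_nonneg b, mul_self_nonneg c, mul_self_nonneg d]
    intro i
    fin_cases i
    · exact k1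
    · exact k2
    · exact k3
    · exact k4
  have := hli.fintype_card_le_finrank
  simpa using this

end Pool.Agent.X183.NZ
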