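import Pool.Agent.X183.NZ.Sgn

/-!
# Small orbits of finite `2`-groups on manifolds with nonzero Euler characteristic
-/

open scoped Topology ContDiff Manifold
open Set Filter

set_option autoImplicit false
set_option linter.unusedSectionVars false

noncomputable section

namespace Pool.Agent.X183.NZ

open Pool.Agent.H718R2.G Pool.Agent.Y504.CO Pool.Agent.Y318.MN Pool.Agent.X183.ZM
  Pool.Agent.X183.IM

/-- sums of invariant functions -/
theorem dvd_sum_orbits {G Z : Type} [Group G] [MulAction G Z] [Fintype Z] {m : ℕ} {F : Z → ℤ}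
    (hF : ∀ (g : G) z, F (g • z) = F z) (h : ∀ z : Z, m ∣ Nat.card (MulAction.orbit G z)) :
    (m : ℤ) ∣ ∑ z, F z := by
  classical
  rw [Finset.sum_partition (MulAction.orbitRel G Z)]
  refine Finset.dvd_sum fun o ho => ?_
  obtain ⟨z, -, rfl⟩ := Finset.mem_image.1 ho
  have h1 : ∀ y ∈ (Finset.univ.filter fun y : Z =>
      (Quotient.mk (MulAction.orbitRel G Z) y) = Quotient.mk (MulAction.orbitRel G Z) z),
      F y = F z := by
    intro y hy
    rw [Finset.mem_filter] at hy
    obtain ⟨g, hg⟩ := MulAction.orbitRel_apply.1 (Quotient.exact hy.2)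
    rw [← hg]
    exact hF g z
  rw [Finset.sum_congr rfl h1, Finset.sum_const, nsmul_eq_mul]
  have h2 : (Finset.univ.filter fun y : Z =>
      (Quotient.mk (MulAction.orbitRel G Z) y) = Quotient.mk (MulAction.orbitRel G Z) z).card =
        Nat.card (MulAction.orbit G z) := by
    rw [Nat.card_coe_set_eq, Set.ncard_eq_toFinset_card']
    congr 1
    ext y
    rw [Finset.mem_filter, Set.mem_toFinset]
    constructor
    · intro hy
      exact MulAction.orbitRel_apply.1 (Quotient.exact hy.2)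
    · intro hy
      exact ⟨Finset.mem_univ _, Quotient.sound (MulAction.orbitRel_apply.2 hy)⟩
  rw [h2]
  exact Dvd.dvd.mul_right (Int.natCast_dvd_natCast.2 (h z)) _

variable {n : ℕ} {N : Type} [TopologicalSpace N] [T2Space N]
  [ChartedSpace (V n) N] [IsManifold (𝓡 n) ∞ N] [CompactSpace N]

theorem small_of_euler {k : ℕ} (D : Subgroup (Equiv.Perm N))
    (hD : ∀ g ∈ D, ContMDiff (𝓡 n) (𝓡 n) ∞ (g : Equiv.Perm N))
    (hN : EulerNotDvd n N (2 ^ (k + 1))) : SmallOrbit k D := by
  classical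
  intro Q hQ hfin hp
  letI : Fintype Q := Fintype.ofFinite _
  set ρ : Q →* Equiv.Perm N := Q.subtype with hρd
  have hρ : ∀ g, ContMDiff (𝓡 n) (𝓡 n) ∞ (ρ g) := fun g => hD _ (hQ g.2)
  obtain ⟨q, hq1, hq2, hq3⟩ := inv_morse hρ
  have hodd := hN q ⟨hq1, hq3⟩
  set Z0 : Set N := {x : N | Crit n q x} with hZ0
  have hinv0 : ∀ (g : Q) (x : N), x ∈ Z0 → ρ g x ∈ Z0 := by
    intro g x hx
    have h1 : ρ g⁻¹ (ρ g x) = x := by
      rw [act_mul, inv_mul_cancel, map_one]; rfl
    refine crit_inv hq1 (hρ g⁻¹) (hq2 g⁻¹) ?_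
    rw [h1]
    exact hx
  have hcs : ∀ (g : Q) (x : N), x ∈ Z0 → cSign n q (ρ g x) = cSign n q x := by
    intro g x hx
    refine cSign_inv hq1 (g := ρ g) (hρ g) ?_ (hq2 g) (hinv0 g x hx)
    have e : ((ρ g).symm : N → N) = ρ g⁻¹ := by
      rw [map_inv]; rfl
    rw [e]
    exact hρ g⁻¹
  rw [← finsum_mem_inter_support] at hodd
  set Z : Set N := Z0 ∩ Function.support (cSign n q) with hZ
  have hinv : ∀ (g : Q) (x : N), x ∈ Z → ρ g x ∈ Z := by
    intro g x hx
    refine ⟨hinv0 g x hx.1, ?_⟩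
    rw [Function.mem_support, hcs g x hx.1]
    exact hx.2
  letI : MulAction Q Z :=
    { smul := fun g x => ⟨ρ g x, hinv g x x.2⟩
      one_smul := fun x => Subtype.ext (by
        show ρ 1 (x : N) = x
        rw [map_one]; rfl)
      mul_smul := fun g h x => Subtype.ext (by
        show ρ (g * h) (x : N) = ρ g (ρ h x)
        rw [act_mul]) }
  -- `Z` is finite
  have hZf : Z.Finite := by
    by_contra hinf
    apply hodd
    have h0 : ∑ᶠ x ∈ Z, cSign n q x = 0 := by
      refine finsum_mem_eq_zero_of_infinite ?_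
      intro hfin'
      exact hinf (hfin'.subset fun x hx => ⟨hx, hx.2⟩)
    rw [h0]
    exact dvd_zero _
  have hZF : Finite Z := hZf
  letI : Fintype Z := Fintype.ofFinite _
  rw [finsum_mem_eq_finite_toFinset_sum _ hZf] at hodd
  have hsum : ∑ x ∈ hZf.toFinset, cSign n q x = ∑ z : Z, cSign n q z := by
    rw [← Finset.sum_coe_sort]
    exact Finset.sum_equiv (Equiv.subtypeEquivRight fun x => hZf.mem_toFinset) (by simp)
      (fun x _ => rfl)
  rw [hsum] at hodd
  obtain ⟨z, hz⟩ : ∃ z : Z, ¬ (2 ^ (k + 1)) ∣ Nat.card (MulAction.orbit Q z) := by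
    by_contra hcon
    push Not at hcon
    apply hodd
    have := dvd_sum_orbits (G := Q) (F := fun z : Z => cSign n q z)
      (fun g z => hcs g z z.2.1) hcon
    exact_mod_cast this
  obtain ⟨j, hj⟩ := hp.card_orbit z
  have hjk : j ≤ k := by
    by_contra h
    push Not at h
    apply hz
    rw [hj]
    exact pow_dvd_pow 2 h
  refine ⟨z, ?_⟩
  have e : {y | ∃ g ∈ Q, g (z : N) = y} = Subtype.val '' (MulAction.orbit Q z) := by
    ext y
    constructor
    · rintro ⟨g, hg, rfl⟩
      exact ⟨(⟨g, hg⟩ : Q) • z, ⟨⟨g, hg⟩, rfl⟩, rfl⟩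
    · rintro ⟨_, ⟨g, rfl⟩, rfl⟩
      exact ⟨g, g.2, rfl⟩
  rw [e, Set.ncard_image_of_injective _ Subtype.val_injective, ← Nat.card_coe_set_eq, hj]
  exact Nat.pow_le_pow_right (by norm_num) hjk

end Pool.Agent.X183.NZ
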