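import Pool.Agent.X183.NZ.Steps
import Pool.Agent.X183.NZ.Fams
import Pool.Agent.X183.NZ.Orbits

/-!
# Final theorem
-/

set_option autoImplicit false

open scoped Manifold ContDiff Topology Quaternion
open Module

namespace Pool.Agent.X183.NZ

open Pool.Agent.X183.ZM

/-- The action `α` is `C^1` and every finite `2`-subgroup of `α(Γ)` has an orbit with at most `2 ^ k`
points, or `α` is `C^∞` and `M` is a closed manifold on which the signed number of critical points of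
every Morse function (the Euler characteristic) is not divisible by `2 ^ (k + 1)`. -/
def Adm (k d : ℕ) {Γ M : Type} [Group Γ] [TopologicalSpace M]
    [ChartedSpace (EuclideanSpace ℝ (Fin d)) M] (α : Γ →* Equiv.Perm M) : Prop :=
  ((∀ g, ContMDiff (𝓡 d) (𝓡 d) 1 (α g)) ∧ SmallOrbit k α.range) ∨
    ((∀ g, ContMDiff (𝓡 d) (𝓡 d) ∞ (α g)) ∧ CompactSpace M ∧ IsManifold (𝓡 d) ∞ M ∧
      EulerNotDvd d M (2 ^ (k + 1)))

/-- The lower bound for `n`. -/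
def Large (k n d : ℕ) : Prop :=
  2 * 4 ^ k + 9 * k + 29 ≤ n ∨ (2 * 4 ^ k + 5 ≤ n ∧ d < 2 ^ ((n - 2 - 2 * 4 ^ k) / 3))

theorem adm_small {k d : ℕ} {Γ M : Type} [Group Γ] [TopologicalSpace M] [T2Space M]
    [ChartedSpace (EuclideanSpace ℝ (Fin d)) M] {α : Γ →* Equiv.Perm M} (h : Adm k d α) :
    (∀ g, ContMDiff (𝓡 d) (𝓡 d) 1 (α g)) ∧ SmallOrbit k α.range := by
  rcases h with h | ⟨h1, h2, h3, h4⟩
  · exact h
  · refine ⟨fun g => (h1 g).of_le (by simp), ?_⟩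
    refine small_of_euler (n := d) α.range ?_ h4
    rintro _ ⟨g, rfl⟩
    exact h1 g

theorem arith (k q : ℕ) (hq : 3 * k + 9 ≤ q) : 4 * (3 * q + 3 + 4 ^ k) ≤ 2 ^ q := by
  obtain ⟨p, rfl⟩ : ∃ p, q = p + 9 := ⟨q - 9, by omega⟩
  have h1 : (4 : ℕ) ^ k ≤ 2 ^ p := by
    rw [show (4 : ℕ) = 2 ^ 2 by norm_num, ← pow_mul]
    exact Nat.pow_le_pow_right (by norm_num) (by omega)
  have h2 : ∀ p : ℕ, 12 * (p + 10) ≤ 508 * 2 ^ p := by
    intro p
    induction p with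
    | zero => norm_num
    | succ p ih =>
      rw [pow_succ]
      omega
  have h3 := h2 p
  rw [pow_add]
  omega

theorem large_out {k n d : ℕ} (h : Large k n d) (hd : d < 4 * (n - 1 - 4 ^ k) ∨ d < 2 * (n - 1)) :
    ∃ T : ℕ, 1 ≤ T ∧ 3 * T + 2 * (2 ^ k) ^ 2 + 2 ≤ n ∧ d < 2 ^ T := by
  have e : ((2 : ℕ) ^ k) ^ 2 = 4 ^ k := by
    rw [← pow_mul, mul_comm, pow_mul]
    norm_num
  rw [e]
  refine ⟨(n - 2 - 2 * 4 ^ k) / 3, ?_, ?_, ?_⟩
  · rcases h with h | ⟨h, _⟩ <;> omega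
  · rcases h with h | ⟨h, _⟩ <;> omega
  · rcases h with h | ⟨_, h⟩
    · have h1 := arith k ((n - 2 - 2 * 4 ^ k) / 3) (by omega)
      omega
    · exact h

variable {n d k : ℕ}

/-- **Lipschitz quaternions.** -/
theorem final_quat (hn : Large k n d) (hd : d < 4 * (n - 1 - 4 ^ k))
    {Γ : Subgroup (Matrix (Fin n) (Fin n) ℍ[ℤ])ˣ} (hΓ : EG n ℍ[ℤ] ≤ Γ) {M : Type}
    [TopologicalSpace M] [T2Space M] [ConnectedSpace M] [ChartedSpace (EuclideanSpace ℝ (Fin d)) M]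
    {α : Γ →* Equiv.Perm M} (hα : Adm k d α) :
    (∀ g (hg : g ∈ EG n ℍ[ℤ]), α ⟨g, hΓ hg⟩ = 1) ∧
      ((EG n ℍ[ℤ]).relIndex Γ ≠ 0 → (Set.range α).Finite) := by
  obtain ⟨h1, h2⟩ := adm_small hα
  obtain ⟨T, hT1, hT2, hT3⟩ := large_out hn (Or.inl hd)
  refine main' quat_four (by norm_num) fam_quat hT1 hT2 hT3 ?_ hΓ α h1 h2
  rw [← pow_mul, mul_comm k 2, pow_mul]
  exact hd

/-- **Gaussian integers.** -/
theorem final_gauss (hn : Large k n d) (hd : d < 2 * (n - 1 - 2 ^ k))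
    {Γ : Subgroup (Matrix (Fin n) (Fin n) GaussianInt)ˣ} (hΓ : EG n GaussianInt ≤ Γ) {M : Type}
    [TopologicalSpace M] [T2Space M] [ConnectedSpace M] [ChartedSpace (EuclideanSpace ℝ (Fin d)) M]
    {α : Γ →* Equiv.Perm M} (hα : Adm k d α) :
    (∀ g (hg : g ∈ EG n GaussianInt), α ⟨g, hΓ hg⟩ = 1) ∧
      ((EG n GaussianInt).relIndex Γ ≠ 0 → (Set.range α).Finite) := by
  obtain ⟨h1, h2⟩ := adm_small hα
  obtain ⟨T, hT1, hT2, hT3⟩ := large_out hn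
    (Or.inr (lt_of_lt_of_le hd (Nat.mul_le_mul_left 2 (Nat.sub_le _ _))))
  refine main' gauss_four (by norm_num) fam_gauss hT1 hT2 hT3 ?_ hΓ α h1 h2
  rw [pow_one]
  exact hd

end Pool.Agent.X183.NZ
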