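import Pool.Agent.X183.ZM.Rep

/-!
# Abelian groups of sign operators

A version of `Pool.Agent.X183.ZM.codim_bound` for an arbitrary elementary abelian `2`-group of
central operators.
-/

set_option autoImplicit false

open Module

namespace Pool.Agent.X183.NZ

open Pool.Agent.X183.ZM

variable {A : Type*} [AddCommGroup A] [Module (ZMod 2) A] [FiniteDimensional (ZMod 2) A]
  {V : Type*} [AddCommGroup V] [Module ℝ V] [FiniteDimensional ℝ V]

/-- the elements of `A` which act trivially on `W` -/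
def TA (Z : A → Module.End ℝ V) (h0 : Z 0 = 1) (hadd : ∀ S T, Z (S + T) = Z S * Z T)
    (W : Submodule ℝ V) : Submodule (ZMod 2) A where
  carrier := {S | ∀ w ∈ W, Z S w = w}
  zero_mem' := by
    intro w _
    rw [h0]
    rfl
  add_mem' := by
    intro S T hS hT w hw
    rw [hadd, Module.End.mul_apply, hT w hw, hS w hw]
  smul_mem' := by
    intro c S hS
    rcases z2_cases c with rfl | rfl
    · rw [zero_smul]
      intro w _
      rw [h0]
      rfl
    · rw [one_smul]
      exact hS

theorem codim_bound' {κ : ℕ} (Z : A → Module.End ℝ V) (h0 : Z 0 = 1)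
    (hadd : ∀ S T, Z (S + T) = Z S * Z T) (𝒢 : Set (Module.End ℝ V)) (hZ𝒢 : ∀ S, Z S ∈ 𝒢)
    (hcom : ∀ S, ∀ g ∈ 𝒢, ∀ w, Z S (g w) = g (Z S w))
    (hP : ∀ W : Submodule ℝ V, W ≠ ⊥ → (∀ g ∈ 𝒢, ∀ w ∈ W, g w ∈ W) →
      (∀ S, (∀ w ∈ W, Z S w = w) ∨ (∀ w ∈ W, Z S w = -w)) → (∃ S, ∃ w ∈ W, Z S w ≠ w) →
      κ ≤ finrank ℝ W) :
    ∀ (k : ℕ) (W : Submodule ℝ V), finrank ℝ W ≤ k → (∀ g ∈ 𝒢, ∀ w ∈ W, g w ∈ W) →
      ∃ c : ℕ, finrank (ZMod 2) A ≤ finrank (ZMod 2) (TA Z h0 hadd W) + c ∧
        κ * c ≤ finrank ℝ W := by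
  intro k
  induction k using Nat.strong_induction_on with
  | _ k ih =>
  intro W hWk hinv
  by_cases hcase : ∀ S : A, (∀ w ∈ W, Z S w = w) ∨ (∀ w ∈ W, Z S w = -w)
  · by_cases htop : TA Z h0 hadd W = ⊤
    · refine ⟨0, ?_, by simp⟩
      rw [htop, finrank_top]
      simp
    · have hW : W ≠ ⊥ := by
        intro h
        apply htop
        rw [eq_top_iff]
        intro S _ w hw
        rw [h, Submodule.mem_bot] at hw
        rw [hw, map_zero]
      obtain ⟨S0, hS0⟩ : ∃ S0, S0 ∉ TA Z h0 hadd W := by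
        by_contra hcon
        push Not at hcon
        exact htop (eq_top_iff.2 fun S _ => hcon S)
      have hdim : κ ≤ finrank ℝ W := by
        refine hP W hW hinv hcase ⟨S0, ?_⟩
        by_contra hcon
        push Not at hcon
        exact hS0 hcon
      refine ⟨1, ?_, by omega⟩
      have h1 : (⊤ : Submodule (ZMod 2) A) ≤ TA Z h0 hadd W ⊔ Submodule.span (ZMod 2) {S0} := by
        intro S _
        by_cases hS : S ∈ TA Z h0 hadd W
        · exact Submodule.mem_sup_left hS
        · have h2 : ∀ {S}, S ∉ TA Z h0 hadd W → ∀ w ∈ W, Z S w = -w := by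
            intro S hS
            rcases hcase S with h | h
            · exact absurd h hS
            · exact h
          have h3 : S + S0 ∈ TA Z h0 hadd W := by
            intro w hw
            rw [hadd, Module.End.mul_apply, h2 hS0 w hw, map_neg, h2 hS w hw, neg_neg]
          have h5 : S0 + S0 = 0 := by
            rw [← two_smul (ZMod 2) S0, show (2 : ZMod 2) = 0 from rfl, zero_smul]
          have h4 : S = (S + S0) + S0 := by
            rw [add_assoc, h5, add_zero]
          rw [h4]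
          exact Submodule.add_mem_sup h3 (Submodule.mem_span_singleton_self S0)
      have h2 := Submodule.finrank_mono h1
      have h3 := Submodule.finrank_add_le_finrank_add_finrank (TA Z h0 hadd W)
        (Submodule.span (ZMod 2) {S0})
      have h4 : finrank (ZMod 2) (Submodule.span (ZMod 2) {S0}) ≤ 1 := by
        have h5 := finrank_span_le_card (R := ZMod 2) ({S0} : Set A)
        simpa using h5
      rw [finrank_top] at h2
      omega
  · push Not at hcase
    obtain ⟨S, ⟨w1, hw1, hne1⟩, w2, hw2, hne2⟩ := hcase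
    have hSS : S + S = 0 := by
      rw [← two_smul (ZMod 2) S, show (2 : ZMod 2) = 0 from rfl, zero_smul]
    have hTT : ∀ w ∈ W, Z S (Z S w) = w := by
      intro w _
      rw [← Module.End.mul_apply, ← hadd, hSS, h0]
      rfl
    obtain ⟨P, N, hPW, hNW, hsup, hinf, hP', hN'⟩ := split_inv W (Z S) (hinv _ (hZ𝒢 S)) hTT
    have hfr : finrank ℝ P + finrank ℝ N = finrank ℝ W := by
      have h1 := Submodule.finrank_sup_add_finrank_inf_eq P N
      rw [hsup, hinf, finrank_bot, add_zero] at h1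
      exact h1.symm
    have hPi : ∀ g ∈ 𝒢, ∀ w ∈ P, g w ∈ P := by
      intro g hg w hw
      have k := (hP' w).1 hw
      exact (hP' _).2 ⟨hinv g hg w k.1, by rw [hcom S g hg, k.2]⟩
    have hNi : ∀ g ∈ 𝒢, ∀ w ∈ N, g w ∈ N := by
      intro g hg w hw
      have k := (hN' w).1 hw
      exact (hN' _).2 ⟨hinv g hg w k.1, by rw [hcom S g hg, k.2, map_neg]⟩
    have hP0 : 0 < finrank ℝ P := by
      rw [Nat.pos_iff_ne_zero]
      intro h
      have h1 := Submodule.finrank_eq_zero.1 h
      rw [h1, bot_sup_eq] at hsup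
      rw [← hsup] at hw2
      exact hne2 ((hN' w2).1 hw2).2
    have hN0 : 0 < finrank ℝ N := by
      rw [Nat.pos_iff_ne_zero]
      intro h
      have h1 := Submodule.finrank_eq_zero.1 h
      rw [h1, sup_bot_eq] at hsup
      rw [← hsup] at hw1
      exact hne1 ((hP' w1).1 hw1).2
    obtain ⟨c1, h1, h1'⟩ := ih (finrank ℝ P) (by omega) P le_rfl hPi
    obtain ⟨c2, h2, h2'⟩ := ih (finrank ℝ N) (by omega) N le_rfl hNi
    refine ⟨c1 + c2, ?_, by rw [mul_add]; omega⟩
    have hle : TA Z h0 hadd P ⊓ TA Z h0 hadd N ≤ TA Z h0 hadd W := by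
      rintro T ⟨hT1, hT2⟩ w hw
      rw [← hsup] at hw
      obtain ⟨x, hx, y, hy, rfl⟩ := Submodule.mem_sup.1 hw
      rw [map_add, hT1 x hx, hT2 y hy]
    have h3 := Submodule.finrank_mono hle
    have h4 := Submodule.finrank_sup_add_finrank_inf_eq (TA Z h0 hadd P) (TA Z h0 hadd N)
    have h5 := Submodule.finrank_le (TA Z h0 hadd P ⊔ TA Z h0 hadd N)
    omega

end Pool.Agent.X183.NZ
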