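import Pool.Agent.X183.ZM.Grp
import Pool.Agent.X183.ZM.Rep

/-!
# Whitehead's lemma and pairs of diagonal entries
-/

set_option autoImplicit false

namespace Pool.Agent.X183.NZ

open Pool.Agent.X183.ZM

variable {n : ℕ} {R : Type} [Ring R]

/-- The group generated by the elementary matrices. -/
def EG (n : ℕ) (R : Type) [Ring R] : Subgroup (Matrix (Fin n) (Fin n) R)ˣ :=
  Subgroup.closure {g | ∃ i j, ∃ h : i ≠ j, ∃ x : R, g = El i j h x}

theorem El_EG (i j : Fin n) (h : i ≠ j) (x : R) : El i j h x ∈ EG n R :=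
  Subgroup.subset_closure ⟨i, j, h, x, rfl⟩

/-- `u` at the place `a` and `u⁻¹` at the place `b` -/
def pe (u : Rˣ) (a b : Fin n) : Fin n → Rˣ := Pi.mulSingle a u * (Pi.mulSingle b u)⁻¹

theorem pe_self (u : Rˣ) (a : Fin n) : pe u a a = 1 := mul_inv_cancel _

theorem pe_comp (u : Rˣ) (a b c : Fin n) : pe u a b = pe u a c * (pe u b c)⁻¹ := by
  unfold pe
  group

theorem pe_comp' (u : Rˣ) (a b c : Fin n) : pe u a b = (pe u b c)⁻¹ * pe u a c := by
  rw [pe_comp u a b c]
  funext i
  simp only [pe, Pi.mul_apply, Pi.inv_apply, Pi.mulSingle_apply]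
  split_ifs <;> group

theorem pe_val (u : Rˣ) {a b : Fin n} (hab : a ≠ b) (c : Fin n) :
    pe u a b c = if c = a then u else if c = b then u⁻¹ else 1 := by
  unfold pe
  rw [Pi.mul_apply, Pi.inv_apply]
  by_cases h1 : c = a
  · subst h1
    simp [hab]
  · by_cases h2 : c = b
    · subst h2
      simp [h1]
    · simp [h1, h2]

/-- the matrix `1 - E_aa - E_bb + u E_ab - u⁻¹ E_ba` -/
theorem W_val (u : Rˣ) {a b : Fin n} (hab : a ≠ b) :
    ((El a b hab (u : R) * El b a hab.symm (-((u⁻¹ : Rˣ) : R)) * El a b hab (u : R) :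
      (Matrix (Fin n) (Fin n) R)ˣ) : Matrix (Fin n) (Fin n) R) =
      1 - Matrix.single a a 1 - Matrix.single b b 1 + Matrix.single a b (u : R) -
        Matrix.single b a ((u⁻¹ : Rˣ) : R) := by
  simp only [Units.val_mul, El_val, mul_add, add_mul, mul_one, one_mul,
    Matrix.single_mul_single_same, Matrix.single_mul_single_of_ne _ _ _ _ hab.symm, add_zero,
    mul_neg, neg_mul, Units.mul_inv, Units.inv_mul]
  have e : ∀ (i j : Fin n) (x : R), Matrix.single i j (-x) = -Matrix.single i j x := by
    intro i j x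
    rw [eq_neg_iff_add_eq_zero, ← Matrix.single_add, neg_add_cancel, Matrix.single_zero]
  simp only [e, neg_mul, Matrix.single_mul_single_same, one_mul]
  abel

theorem Dg_pe_mem (u : Rˣ) (a b : Fin n) : Dg (pe u a b) ∈ EG n R := by
  rcases eq_or_ne a b with rfl | hab
  · rw [pe_self]
    have : Dg (1 : Fin n → Rˣ) = 1 := (DgHom n R).map_one
    rw [this]
    exact Subgroup.one_mem _
  · have key : Dg (pe u a b) = (El a b hab (u : R) * El b a hab.symm (-((u⁻¹ : Rˣ) : R)) *
        El a b hab (u : R)) * (El a b hab (((-1 : Rˣ)) : R) *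
        El b a hab.symm (-(((-1 : Rˣ)⁻¹ : Rˣ) : R)) * El a b hab ((-1 : Rˣ) : R)) := by
      apply Units.ext
      rw [Units.val_mul, W_val, W_val]
      show Matrix.diagonal (fun i => ((pe u a b i : Rˣ) : R)) = _
      have e : ∀ (i j : Fin n) (x : R), Matrix.single i j (-x) = -Matrix.single i j x := by
        intro i j x
        rw [eq_neg_iff_add_eq_zero, ← Matrix.single_add, neg_add_cancel, Matrix.single_zero]
      have hd : Matrix.diagonal (fun i => ((pe u a b i : Rˣ) : R)) =
          1 - Matrix.single a a 1 - Matrix.single b b 1 + Matrix.single a a (u : R) +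
            Matrix.single b b ((u⁻¹ : Rˣ) : R) := by
        ext i j
        rw [Matrix.diagonal_apply, pe_val u hab]
        simp only [Matrix.add_apply, Matrix.sub_apply, Matrix.one_apply, Matrix.single_apply]
        by_cases hij : i = j
        · subst hij
          by_cases h1 : i = a
          · subst h1
            simp [hab.symm]
          · by_cases h2 : i = b
            · subst h2
              simp [h1, Ne.symm h1]
            · simp [h1, h2, Ne.symm h1, Ne.symm h2]
        · have h1 : ¬ (a = i ∧ a = j) := fun h => hij (h.1.symm.trans h.2)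
          have h2 : ¬ (b = i ∧ b = j) := fun h => hij (h.1.symm.trans h.2)
          simp [hij, h1, h2]
      rw [hd]
      simp only [inv_neg, inv_one, Units.val_neg, Units.val_one, e, mul_add, add_mul, mul_sub,
        sub_mul, mul_one, one_mul, Matrix.single_mul_single_same,
        Matrix.single_mul_single_of_ne _ _ _ _ hab.symm,
        Matrix.single_mul_single_of_ne _ _ _ _ hab, add_zero, mul_neg, neg_mul, sub_zero, neg_zero,
        neg_neg, zero_sub, sub_neg_eq_add]
      abel
    rw [key]
    exact Subgroup.mul_mem _ (Subgroup.mul_mem _ (Subgroup.mul_mem _ (El_EG _ _ _ _)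
      (El_EG _ _ _ _)) (El_EG _ _ _ _)) (Subgroup.mul_mem _ (Subgroup.mul_mem _ (El_EG _ _ _ _)
      (El_EG _ _ _ _)) (El_EG _ _ _ _))

/-- the sign pattern with two signs -/
def e2 (a b : Fin n) : Fin n → ZMod 2 := Pi.single a 1 + Pi.single b 1

theorem e2_self (a : Fin n) : e2 a a = 0 := self_add _

theorem sg_e2_val {a b : Fin n} (hab : a ≠ b) (c : Fin n) :
    sg (R := R) (e2 a b) c = if c = a then -1 else if c = b then -1 else 1 := by
  have h10 : (1 : ZMod 2) ≠ 0 := by decide
  unfold sg e2
  by_cases h1 : c = a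
  · subst h1
    simp [hab]
  · by_cases h2 : c = b
    · subst h2
      simp [h1]
    · simp [h1, h2]

theorem sg_e2 {u : Rˣ} (hu : u * u = -1) (a b : Fin n) :
    sg (R := R) (e2 a b) = pe u a b * pe u a b := by
  rcases eq_or_ne a b with rfl | hab
  · rw [e2_self, sg_zero, pe_self, one_mul]
  · funext c
    rw [Pi.mul_apply, sg_e2_val hab, pe_val u hab]
    split_ifs
    · exact hu.symm
    · rw [← mul_inv_rev, hu, inv_neg, inv_one]
    · rw [one_mul]

theorem pe_anti {u v : Rˣ} (huv : u * v = -(v * u)) {a b : Fin n} (hab : a ≠ b) :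
    pe u a b * pe v a b = sg (R := R) (e2 a b) * (pe v a b * pe u a b) := by
  funext c
  rw [Pi.mul_apply, Pi.mul_apply, Pi.mul_apply, sg_e2_val hab, pe_val u hab, pe_val v hab]
  split_ifs
  · rw [huv, neg_one_mul]
  · rw [← mul_inv_rev, ← mul_inv_rev, huv, neg_one_mul, inv_neg, neg_neg]
  · simp

end Pool.Agent.X183.NZ
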