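import Pool.Agent.X183.NZ.Orb
import Pool.Agent.X183.NZ.Whd
import Pool.Agent.X183.NZ.Codim

/-!
# The diagonal step for actions with small orbits
-/

set_option autoImplicit false

open scoped Manifold ContDiff Topology
open Module

namespace Pool.Agent.X183.NZ

open Pool.Agent.X183.ZM

/-- `κ` is the smallest dimension of a space with operators which satisfy the relations of the units
`u s`. -/
def Fam (κ t : ℕ) {R : Type} [Ring R] (u : Fin t → Rˣ) : Prop :=
  (∀ s, u s * u s = -1) ∧
  ∀ (V : Type) [AddCommGroup V] [Module ℝ V] [FiniteDimensional ℝ V] (W : Submodule ℝ V)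
    (P : Fin t → Module.End ℝ V), W ≠ ⊥ → (∀ s, ∀ w ∈ W, P s w ∈ W) →
    (∀ s, ∀ w ∈ W, P s (P s w) = -w) →
    (∀ s s', u s * u s' = -(u s' * u s) → ∀ w ∈ W, P s (P s' w) = -P s' (P s w)) →
    κ ≤ finrank ℝ W

variable {n : ℕ} {R : Type} [Ring R]

/-- the sign patterns with even sums on the classes of `f` -/
def Acl {T : Type} (f : Fin n → T) : Submodule (ZMod 2) (Fin n → ZMod 2) :=
  Submodule.span (ZMod 2) {S | ∃ a b, f a = f b ∧ S = e2 a b}

theorem finrank_Acl {T : Type} [Finite T] (f : Fin n → T) :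
    n ≤ finrank (ZMod 2) (Acl f) + Nat.card T := by
  classical
  letI : Fintype T := Fintype.ofFinite T
  set r : T → (Fin n → ZMod 2) := fun t => if h : ∃ a, f a = t then Pi.single h.choose 1 else 0
    with hr
  have h1 : (⊤ : Submodule (ZMod 2) (Fin n → ZMod 2)) ≤
      Acl f ⊔ Submodule.span (ZMod 2) (Set.range r) := by
    rw [← (Pi.basisFun (ZMod 2) (Fin n)).span_eq, Submodule.span_le]
    rintro _ ⟨a, rfl⟩
    rw [Pi.basisFun_apply]
    have hex : ∃ b, f b = f a := ⟨a, rfl⟩
    have hrv : r (f a) = Pi.single hex.choose 1 := dif_pos hex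
    have e : (Pi.single a 1 : Fin n → ZMod 2) = e2 a hex.choose + r (f a) := by
      rw [hrv]
      unfold e2
      rw [add_assoc, self_add, add_zero]
    rw [e]
    exact Submodule.add_mem_sup (Submodule.subset_span ⟨a, hex.choose, hex.choose_spec.symm, rfl⟩)
      (Submodule.subset_span ⟨f a, rfl⟩)
  have h2 := Submodule.finrank_mono h1
  have h3 := Submodule.finrank_add_le_finrank_add_finrank (Acl f)
    (Submodule.span (ZMod 2) (Set.range r))
  have h4 : finrank (ZMod 2) (Submodule.span (ZMod 2) (Set.range r)) ≤ Fintype.card T :=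
    finrank_range_le_card r
  rw [finrank_top, Module.finrank_fin_fun] at h2
  rw [Nat.card_eq_fintype_card]
  omega

variable {d : ℕ} {M : Type} [TopologicalSpace M]
  [T2Space M] [ConnectedSpace M] [ChartedSpace (EuclideanSpace ℝ (Fin d)) M]

/-- **A nonconstant sign pattern acts trivially.** -/
theorem sign_trivial [Finite Rˣ] (h4 : ∀ u : Rˣ, u ^ 4 = 1) {κ t : ℕ} (ht : 1 ≤ t)
    {u : Fin t → Rˣ} (hu : Fam κ t u) {k : ℕ} (hn : 1 ≤ n)
    (hd : d < κ * (n - 1 - (2 ^ k) ^ t))
    {Γ : Subgroup (Matrix (Fin n) (Fin n) R)ˣ} (hΓ : EG n R ≤ Γ) (α : Γ →* Equiv.Perm M)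
    (hα : ∀ g, ContMDiff (𝓡 d) (𝓡 d) 1 (α g)) (hM : SmallOrbit k α.range) :
    ∃ (S : Fin n → ZMod 2) (hS : Dg (sg S) ∈ Γ), (∃ a b, S a = 0 ∧ S b ≠ 0) ∧
      α ⟨Dg (sg S), hS⟩ = 1 := by
  classical
  -- the finite group of diagonal matrices
  set D0 : Subgroup (Fin n → Rˣ) := Γ.comap (DgHom n R) with hD0
  set β : D0 →* Equiv.Perm M := α.comp
    (((DgHom n R).comp D0.subtype).codRestrict Γ fun g => g.2) with hβ
  have hβv : ∀ g : D0, β g = α ⟨Dg (g : Fin n → Rˣ), g.2⟩ := fun g => rfl
  have hp : IsPGroup 2 D0 := by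
    intro g
    refine ⟨2, ?_⟩
    apply Subtype.ext
    funext a
    exact h4 ((g : Fin n → Rˣ) a)
  have hsm : ∀ g, ContMDiff (𝓡 d) (𝓡 d) 1 (β g) := fun g => hα _
  obtain ⟨x, hfin, hcard⟩ := exists_small hM hp β fun g => ⟨_, rfl⟩
  obtain ⟨L, hL⟩ := lin_st β hsm x
  have hpe : ∀ (s : Fin t) (a b : Fin n), pe (u s) a b ∈ D0 := fun s a b =>
    hΓ (Dg_pe_mem (u s) a b)
  have a0 : Fin n := ⟨0, by omega⟩
  set f : Fin n → (Fin t → Orb β x) := fun a s => ⟨β ⟨pe (u s) a a0, hpe s a a0⟩ x, ⟨_, rfl⟩⟩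
    with hf
  have hker : ∀ s a b, f a = f b → (⟨pe (u s) a b, hpe s a b⟩ : D0) ∈ St β x := by
    intro s a b hab
    have e : (⟨pe (u s) a b, hpe s a b⟩ : D0) =
        (⟨pe (u s) b a0, hpe s b a0⟩ : D0)⁻¹ * ⟨pe (u s) a a0, hpe s a a0⟩ :=
      Subtype.ext (pe_comp' (u s) a b a0)
    rw [e]
    exact inv_mul_St (congrArg Subtype.val (congrFun hab s))
  set s0 : Fin t := ⟨0, ht⟩ with hs0
  have hSD : ∀ S ∈ Acl f, ∃ h : sg (R := R) S ∈ D0, (⟨sg S, h⟩ : D0) ∈ St β x := by
    intro S hS
    unfold Acl at hS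
    induction hS using Submodule.span_induction with
    | mem S hS =>
      obtain ⟨a, b, hab, rfl⟩ := hS
      have e := sg_e2 (hu.1 s0) a b
      have h1 : sg (R := R) (e2 a b) ∈ D0 := by
        rw [e]
        exact D0.mul_mem (hpe _ _ _) (hpe _ _ _)
      refine ⟨h1, ?_⟩
      have e' : (⟨sg (e2 a b), h1⟩ : D0) = ⟨pe (u s0) a b, hpe s0 a b⟩ *
          ⟨pe (u s0) a b, hpe s0 a b⟩ := Subtype.ext e
      rw [e']
      exact Subgroup.mul_mem _ (hker s0 a b hab) (hker s0 a b hab)
    | zero =>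
      have h1 : sg (R := R) (0 : Fin n → ZMod 2) ∈ D0 := by
        rw [sg_zero]
        exact D0.one_mem
      refine ⟨h1, ?_⟩
      have e' : (⟨sg 0, h1⟩ : D0) = 1 := Subtype.ext sg_zero
      rw [e']
      exact Subgroup.one_mem _
    | add S T _ _ hS hT =>
      obtain ⟨h1, h1'⟩ := hS
      obtain ⟨h2, h2'⟩ := hT
      have h3 : sg (R := R) (S + T) ∈ D0 := by
        rw [sg_add]
        exact D0.mul_mem h1 h2
      refine ⟨h3, ?_⟩
      have e' : (⟨sg (S + T), h3⟩ : D0) = ⟨sg S, h1⟩ * ⟨sg T, h2⟩ := Subtype.ext (sg_add S T)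
      rw [e']
      exact Subgroup.mul_mem _ h1' h2'
    | smul c S _ hS =>
      rcases z2_cases c with rfl | rfl
      · rw [zero_smul]
        have h1 : sg (R := R) (0 : Fin n → ZMod 2) ∈ D0 := by
          rw [sg_zero]
          exact D0.one_mem
        refine ⟨h1, ?_⟩
        have e' : (⟨sg 0, h1⟩ : D0) = 1 := Subtype.ext sg_zero
        rw [e']
        exact Subgroup.one_mem _
      · rw [one_smul]
        exact hS
  have hS1 : ∀ S ∈ Acl f, sg (R := R) S ∈ D0 := fun S hS => (hSD S hS).fst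
  have hS2 : ∀ S (hS : S ∈ Acl f), (⟨sg S, hS1 S hS⟩ : D0) ∈ St β x :=
    fun S hS => (hSD S hS).snd
  set Z : Acl f → Module.End ℝ (EuclideanSpace ℝ (Fin d)) :=
    fun S => L ⟨⟨sg (S : Fin n → ZMod 2), hS1 S S.2⟩, hS2 S S.2⟩ with hZ
  have h0 : Z 0 = 1 := by
    have e : (⟨⟨sg ((0 : Acl f) : Fin n → ZMod 2), hS1 _ (0 : Acl f).2⟩, hS2 _ (0 : Acl f).2⟩ :
        St β x) = 1 := Subtype.ext (Subtype.ext sg_zero)
    simp only [hZ]
    rw [e, map_one]
  have hadd : ∀ S T, Z (S + T) = Z S * Z T := by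
    intro S T
    simp only [hZ]
    rw [← map_mul]
    congr 1
    exact Subtype.ext (Subtype.ext (sg_add _ _))
  obtain ⟨c, hc1, hc2⟩ := codim_bound' (κ := κ) Z h0 hadd (Set.range L)
    (fun S => ⟨_, rfl⟩)
    (by
      rintro S _ ⟨g, rfl⟩ w
      simp only [hZ]
      rw [← Module.End.mul_apply, ← Module.End.mul_apply, ← map_mul, ← map_mul]
      congr 2
      exact Subtype.ext (Subtype.ext (sg_central _ _)))
    (by
      intro W hW hinv hpm ⟨S0, hS0⟩
      -- a pair acts as `-1`
      obtain ⟨a, b, hab, hneg⟩ : ∃ a b, ∃ hab : f a = f b, ∀ w ∈ W,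
          Z ⟨e2 a b, Submodule.subset_span ⟨a, b, hab, rfl⟩⟩ w = -w := by
        by_contra hcon
        push Not at hcon
        have hall : ∀ S : Acl f, ∀ w ∈ W, Z S w = w := by
          have hall' : ∀ S (hS : S ∈ Acl f), ∀ w ∈ W, Z ⟨S, hS⟩ w = w := by
            intro S hS
            unfold Acl at hS
            induction hS using Submodule.span_induction with
            | mem S hS =>
              obtain ⟨a, b, hab, rfl⟩ := hS
              rcases hpm ⟨e2 a b, Submodule.subset_span ⟨a, b, hab, rfl⟩⟩ with h | h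
              · exact h
              · obtain ⟨w, hw, hne⟩ := hcon a b hab
                exact absurd (h w hw) hne
            | zero =>
              intro w _
              rw [show (⟨0, Submodule.zero_mem _⟩ : Acl f) = 0 from rfl, h0]
              rfl
            | add S T hS hT ihS ihT =>
              intro w hw
              rw [show (⟨S + T, Submodule.add_mem _ hS hT⟩ : Acl f) = ⟨S, hS⟩ + ⟨T, hT⟩ from rfl,
                hadd, Module.End.mul_apply, ihT w hw, ihS w hw]
            | smul c S hS ih =>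
              rcases z2_cases c with rfl | rfl
              · intro w _
                rw [show (⟨(0 : ZMod 2) • S, Submodule.smul_mem _ _ hS⟩ : Acl f) = 0 from
                  Subtype.ext (zero_smul _ _), h0]
                rfl
              · intro w hw
                rw [show (⟨(1 : ZMod 2) • S, Submodule.smul_mem _ _ hS⟩ : Acl f) = ⟨S, hS⟩ from
                  Subtype.ext (one_smul _ _)]
                exact ih w hw
          exact fun S => hall' S S.2
        obtain ⟨w, hw, hne⟩ := hS0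
        exact hne (hall S0 w hw)
      have hne : a ≠ b := by
        rintro rfl
        obtain ⟨w, hw, hw0⟩ := Submodule.exists_mem_ne_zero_of_ne_bot hW
        have h1 := hneg w hw
        rw [show (⟨e2 a a, Submodule.subset_span ⟨a, a, hab, rfl⟩⟩ : Acl f) = 0 from
          Subtype.ext (e2_self a), h0] at h1
        have h2 : w = -w := h1
        have h3 : (2 : ℝ) • w = 0 := by
          rw [two_smul]
          nth_rewrite 2 [h2]
          exact add_neg_cancel w
        exact hw0 ((smul_eq_zero.1 h3).resolve_left (by norm_num))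
      refine hu.2 _ W (fun s => L ⟨⟨pe (u s) a b, hpe s a b⟩, hker s a b hab⟩) hW
        (fun s w hw => hinv _ ⟨_, rfl⟩ w hw) ?_ ?_
      · intro s w hw
        rw [← hneg w hw]
        simp only [hZ]
        rw [← Module.End.mul_apply, ← map_mul]
        congr 2
        exact Subtype.ext (Subtype.ext (sg_e2 (hu.1 s) a b).symm)
      · intro s s' hss w hw
        have e : (⟨⟨pe (u s) a b, hpe s a b⟩, hker s a b hab⟩ : St β x) *
            ⟨⟨pe (u s') a b, hpe s' a b⟩, hker s' a b hab⟩ =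
            ⟨⟨sg (e2 a b), hS1 _ (Submodule.subset_span ⟨a, b, hab, rfl⟩)⟩,
              hS2 _ (Submodule.subset_span ⟨a, b, hab, rfl⟩)⟩ *
            (⟨⟨pe (u s') a b, hpe s' a b⟩, hker s' a b hab⟩ *
              ⟨⟨pe (u s) a b, hpe s a b⟩, hker s a b hab⟩) :=
          Subtype.ext (Subtype.ext (pe_anti hss hne))
        have e2 := congrArg L e
        rw [map_mul, map_mul, map_mul] at e2
        have e3 := DFunLike.congr_fun e2 w
        have e4 := hneg _ (hinv _ ⟨⟨⟨pe (u s') a b, hpe s' a b⟩, hker s' a b hab⟩, rfl⟩ _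
          (hinv _ ⟨⟨⟨pe (u s) a b, hpe s a b⟩, hker s a b hab⟩, rfl⟩ w hw))
        exact e3.trans e4)
    (finrank ℝ (EuclideanSpace ℝ (Fin d))) ⊤ (by simp) (fun _ _ _ _ => Submodule.mem_top)
  -- counting
  have hT : Nat.card (Fin t → Orb β x) ≤ (2 ^ k) ^ t := by
    rw [Nat.card_fun, Nat.card_fin]
    exact Nat.pow_le_pow_left hcard t
  have hA := finrank_Acl f
  rw [finrank_top, finrank_euclideanSpace_fin] at hc2
  have h3 : c < n - 1 - (2 ^ k) ^ t := by
    by_contra h
    push Not at h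
    have := Nat.mul_le_mul_left κ h
    omega
  set TT := (TA Z h0 hadd ⊤).map (Acl f).subtype with hTT
  have hTTf : finrank (ZMod 2) TT = finrank (ZMod 2) (TA Z h0 hadd ⊤) :=
    (LinearEquiv.finrank_eq (Submodule.equivMapOfInjective (Acl f).subtype
      (Submodule.injective_subtype _) _)).symm
  have h5 : ∃ S ∈ TT, S ∉ Submodule.span (ZMod 2) {(1 : Fin n → ZMod 2)} := by
    by_contra hcon
    push Not at hcon
    have h5 := Submodule.finrank_mono (show TT ≤ Submodule.span (ZMod 2) {(1 : Fin n → ZMod 2)}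
      from hcon)
    have h6 := finrank_span_le_card (R := ZMod 2) ({1} : Set (Fin n → ZMod 2))
    simp only [Set.toFinset_singleton, Finset.card_singleton] at h6
    omega
  obtain ⟨S, hS, hSn⟩ := h5
  obtain ⟨S', hS', rfl⟩ := Submodule.mem_map.1 hS
  refine ⟨S', hS1 _ S'.2, ?_, ?_⟩
  · by_contra hcon
    push Not at hcon
    apply hSn
    rw [Submodule.mem_span_singleton]
    by_cases h0' : ∃ a, (S' : Fin n → ZMod 2) a = 0
    · obtain ⟨a, ha⟩ := h0'
      refine ⟨0, ?_⟩
      funext b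
      rw [zero_smul]
      exact (hcon a b ha).symm
    · push Not at h0'
      refine ⟨1, ?_⟩
      funext b
      rw [one_smul]
      have h : ∀ x : ZMod 2, x ≠ 0 → 1 = x := by decide
      exact h _ (h0' b)
  · have h6 : Z S' = 1 := LinearMap.ext fun w => hS' w Submodule.mem_top
    exact hL _ h6

end Pool.Agent.X183.NZ
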