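import Mathlib

/-!
# Monochromatic triples
-/

set_option autoImplicit false

namespace Pool.Agent.X183.NZ

/-- Many disjoint monochromatic triples. -/
theorem triples {ι T : Type} [DecidableEq ι] [Finite T] (f : ι → T) :
    ∀ (t : ℕ) (C : Finset ι), 3 * t + 2 * Nat.card T ≤ C.card →
      ∃ e : Fin t → Fin 3 → ι, (∀ s i, e s i ∈ C) ∧ (∀ s i s' i', e s i = e s' i' → s = s' ∧ i = i') ∧
        ∀ s i j, f (e s i) = f (e s j) := by
  classical
  letI : Fintype T := Fintype.ofFinite T
  intro t
  induction t with
  | zero =>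
    intro C _
    exact ⟨fun s => s.elim0, fun s => s.elim0, fun s => s.elim0, fun s => s.elim0⟩
  | succ t ih =>
    intro C hC
    rw [Nat.card_eq_fintype_card] at hC
    obtain ⟨y, -, hy⟩ := Finset.exists_lt_card_fiber_of_mul_lt_card_of_maps_to (s := C)
      (t := (Finset.univ : Finset T)) (f := f) (n := 2) (fun a _ => Finset.mem_univ _)
      (by rw [Finset.card_univ]; omega)
    obtain ⟨D, hD, hDc⟩ := Finset.exists_subset_card_eq (show 3 ≤ _ from hy)
    have hD1 : ∀ a ∈ D, a ∈ C ∧ f a = y := by
      intro a ha
      have := hD ha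
      rwa [Finset.mem_filter] at this
    obtain ⟨e, he1, he2, he3⟩ := ih (C \ D) (by
      rw [Nat.card_eq_fintype_card, Finset.card_sdiff_of_subset (fun a ha => (hD1 a ha).1), hDc]
      omega)
    set g : Fin 3 ≃ D := (D.equivFinOfCardEq hDc).symm with hg
    refine ⟨Fin.cons (fun i => (g i : ι)) e, ?_, ?_, ?_⟩
    · intro s
      refine Fin.cases ?_ (fun s => ?_) s
      · intro i
        exact (hD1 _ (g i).2).1
      · intro i
        exact (Finset.mem_sdiff.1 (he1 s i)).1
    · intro s i s' i'
      refine Fin.cases ?_ (fun s => ?_) s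
      · refine Fin.cases ?_ (fun s' => ?_) s'
        · intro h
          exact ⟨rfl, g.injective (Subtype.ext h)⟩
        · intro h
          have h : (g i : ι) = e s' i' := h
          exact absurd (h ▸ (g i).2) (Finset.mem_sdiff.1 (he1 s' i')).2
      · refine Fin.cases ?_ (fun s' => ?_) s'
        · intro h
          have h : e s i = (g i' : ι) := h
          exact absurd (h ▸ (g i').2) (Finset.mem_sdiff.1 (he1 s i)).2
        · intro h
          have h : e s i = e s' i' := h
          obtain ⟨h1, h2⟩ := he2 _ _ _ _ h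
          exact ⟨by rw [h1], h2⟩
    · intro s
      refine Fin.cases ?_ (fun s => ?_) s
      · intro i j
        show f (g i) = f (g j)
        rw [(hD1 _ (g i).2).2, (hD1 _ (g j).2).2]
      · intro i j
        exact he3 s i j

end Pool.Agent.X183.NZ
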