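import Pool.Agent.X183.NZ.Orb
import Pool.Agent.X183.NZ.Triple
import Pool.Agent.X183.ZM.Rep

/-!
# Heisenberg groups acting with small orbits
-/

set_option autoImplicit false

open scoped Manifold ContDiff Topology
open Module

namespace Pool.Agent.X183.NZ

open Pool.Agent.X183.ZM

variable {d : ℕ} {M : Type} [TopologicalSpace M]
  [T2Space M] [ConnectedSpace M] [ChartedSpace (EuclideanSpace ℝ (Fin d)) M]

/-- **Heisenberg groups.** -/
theorem heis_core {k T : ℕ} {ι : Type} [DecidableEq ι] {D : Subgroup (Equiv.Perm M)}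
    (hD : ∀ g ∈ D, ContMDiff (𝓡 d) (𝓡 d) 1 (g : Equiv.Perm M)) (hM : SmallOrbit k D)
    (Z : Equiv.Perm M) (X Y : ι → Equiv.Perm M) (C : Finset ι) (hZD : Z ∈ D)
    (hXD : ∀ c ∈ C, X c ∈ D) (hYD : ∀ c ∈ C, Y c ∈ D) (hZZ : Z * Z = 1)
    (hXX : ∀ c ∈ C, X c * X c = 1) (hYY : ∀ c ∈ C, Y c * Y c = 1)
    (hZX : ∀ c ∈ C, Commute Z (X c)) (hZY : ∀ c ∈ C, Commute Z (Y c))
    (hXXc : ∀ c ∈ C, ∀ c' ∈ C, Commute (X c) (X c'))
    (hYYc : ∀ c ∈ C, ∀ c' ∈ C, Commute (Y c) (Y c'))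
    (hXYc : ∀ c ∈ C, ∀ c' ∈ C, c ≠ c' → Commute (X c) (Y c'))
    (hXY : ∀ c ∈ C, X c * Y c = Z * (Y c * X c)) (hT : 1 ≤ T)
    (hc : 3 * T + 2 * (2 ^ k) ^ 2 ≤ C.card) (hd : d < 2 ^ T) : Z = 1 := by
  classical
  have hYX : ∀ c ∈ C, Y c * X c = Z * (X c * Y c) := by
    intro c hc
    rw [hXY c hc, ← mul_assoc, hZZ, one_mul]
  set s : Finset (Equiv.Perm M) := C.image X ∪ C.image Y with hs
  have hsm : ∀ g ∈ s, (∃ c ∈ C, g = X c) ∨ ∃ c ∈ C, g = Y c := by
    intro g hg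
    rw [hs, Finset.mem_union, Finset.mem_image, Finset.mem_image] at hg
    rcases hg with ⟨c, hc, rfl⟩ | ⟨c, hc, rfl⟩
    · exact Or.inl ⟨c, hc, rfl⟩
    · exact Or.inr ⟨c, hc, rfl⟩
  obtain ⟨hfin, hsq, hcen⟩ := heis_finite Z hZZ s
    (by
      intro g hg
      rcases hsm g hg with ⟨c, hc, rfl⟩ | ⟨c, hc, rfl⟩
      · exact hXX c hc
      · exact hYY c hc)
    (by
      intro g hg
      rcases hsm g hg with ⟨c, hc, rfl⟩ | ⟨c, hc, rfl⟩
      · exact hZX c hc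
      · exact hZY c hc)
    (by
      intro g hg h hh
      rcases hsm g hg with ⟨c, hc, rfl⟩ | ⟨c, hc, rfl⟩ <;>
      rcases hsm h hh with ⟨c', hc', rfl⟩ | ⟨c', hc', rfl⟩
      · exact Or.inl (hXXc c hc c' hc')
      · by_cases e : c = c'
        · subst e; exact Or.inr (hXY c hc)
        · exact Or.inl (hXYc c hc c' hc' e)
      · by_cases e : c = c'
        · subst e; exact Or.inr (hYX c hc)
        · exact Or.inl (hXYc c' hc' c hc (Ne.symm e)).symm
      · exact Or.inl (hYYc c hc c' hc'))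
  set Q := Subgroup.closure (insert Z (s : Set (Equiv.Perm M))) with hQ
  have hZQ : Z ∈ Q := Subgroup.subset_closure (Set.mem_insert _ _)
  have hXQ : ∀ c ∈ C, X c ∈ Q := fun c hc => Subgroup.subset_closure
    (Set.mem_insert_of_mem _ (by
      rw [hs]; exact Finset.mem_coe.2 (Finset.mem_union_left _ (Finset.mem_image_of_mem _ hc))))
  have hYQ : ∀ c ∈ C, Y c ∈ Q := fun c hc => Subgroup.subset_closure
    (Set.mem_insert_of_mem _ (by
      rw [hs]; exact Finset.mem_coe.2 (Finset.mem_union_right _ (Finset.mem_image_of_mem _ hc))))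
  have hfinQ : Finite Q := hfin
  have hQr : Q ≤ D := by
    rw [hQ, Subgroup.closure_le]
    intro g hg
    rcases hg with rfl | hg
    · exact hZD
    · rcases hsm g hg with ⟨c, hc, rfl⟩ | ⟨c, hc, rfl⟩
      · exact hXD c hc
      · exact hYD c hc
  have hp : IsPGroup 2 Q := by
    intro g
    refine ⟨2, ?_⟩
    apply Subtype.ext
    have e : ((g ^ 2 ^ 2 : Q) : Equiv.Perm M) = ((g : Equiv.Perm M) * g) * (g * g) := by
      rw [Subgroup.coe_pow]
      show (g : Equiv.Perm M) ^ 4 = _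
      rw [pow_succ, pow_succ, pow_two, mul_assoc, mul_assoc]
    rw [e]
    rcases hsq g g.2 with h1 | h1 <;> rw [h1]
    · exact mul_one 1
    · exact hZZ
  obtain ⟨x, hxf, hxc⟩ := exists_small hM hp Q.subtype fun g => hQr g.2
  set β : Q →* Equiv.Perm M := Q.subtype with hβ
  -- the classes
  have hx1 : x ∈ Orb β x := ⟨1, by
    show β 1 x = x
    rw [map_one]; rfl⟩
  set f : ι → Orb β x × Orb β x := fun c =>
    (if h : X c ∈ Q then ⟨X c x, ⟨⟨X c, h⟩, rfl⟩⟩ else ⟨x, hx1⟩,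
      if h : Y c ∈ Q then ⟨Y c x, ⟨⟨Y c, h⟩, rfl⟩⟩ else ⟨x, hx1⟩) with hf
  have hcard : Nat.card (Orb β x × Orb β x) ≤ (2 ^ k) ^ 2 := by
    rw [Nat.card_prod, pow_two]
    exact Nat.mul_le_mul hxc hxc
  obtain ⟨e, he1, he2, he3⟩ := triples f T C (by omega)
  have hne : ∀ {s i s' i'}, (s ≠ s' ∨ i ≠ i') → e s i ≠ e s' i' := by
    intro s i s' i' h h'
    obtain ⟨h1, h2⟩ := he2 _ _ _ _ h'
    rcases h with h | h
    · exact h h1
    · exact h h2
  set K : Subgroup (Equiv.Perm M) := (St β x).map Q.subtype with hK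
  have hKQ : K ≤ Q := by
    rintro _ ⟨g, -, rfl⟩
    exact g.2
  have hKm : ∀ g (hg : g ∈ Q), g x = x → g ∈ K := fun g hg h =>
    ⟨⟨g, hg⟩, h, rfl⟩
  have hXK : ∀ s i j, X (e s i) * X (e s j) ∈ K := by
    intro s i j
    have hi := hXQ _ (he1 s i)
    have hj := hXQ _ (he1 s j)
    have h1 := congrArg Prod.fst (he3 s i j)
    simp only [hf] at h1
    rw [dif_pos hi, dif_pos hj] at h1
    have h2 : X (e s i) x = X (e s j) x := congrArg Subtype.val h1
    refine hKm _ (Q.mul_mem hi hj) ?_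
    show X (e s i) (X (e s j) x) = x
    rw [← h2]
    exact DFunLike.congr_fun (hXX _ (he1 s i)) x
  have hYK : ∀ s i j, Y (e s i) * Y (e s j) ∈ K := by
    intro s i j
    have hi := hYQ _ (he1 s i)
    have hj := hYQ _ (he1 s j)
    have h1 := congrArg Prod.snd (he3 s i j)
    simp only [hf] at h1
    rw [dif_pos hi, dif_pos hj] at h1
    have h2 : Y (e s i) x = Y (e s j) x := congrArg Subtype.val h1
    refine hKm _ (Q.mul_mem hi hj) ?_
    show Y (e s i) (Y (e s j) x) = x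
    rw [← h2]
    exact DFunLike.congr_fun (hYY _ (he1 s i)) x
  set X' : Fin T → Equiv.Perm M := fun s => X (e s 0) * X (e s 1) with hX'
  set Y' : Fin T → Equiv.Perm M := fun s => Y (e s 0) * Y (e s 2) with hY'
  have hX'K : ∀ s, X' s ∈ K := fun s => hXK s 0 1
  have hY'K : ∀ s, Y' s ∈ K := fun s => hYK s 0 2
  have hXX' : ∀ s, X' s * X' s = 1 := by
    intro s
    simp only [hX']
    rw [mul_assoc, ← mul_assoc (X (e s 1)), (hXXc _ (he1 s 1) _ (he1 s 0)).eq, mul_assoc,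
      hXX _ (he1 s 1), mul_one, hXX _ (he1 s 0)]
  have hYY' : ∀ s, Y' s * Y' s = 1 := by
    intro s
    simp only [hY']
    rw [mul_assoc, ← mul_assoc (Y (e s 2)), (hYYc _ (he1 s 2) _ (he1 s 0)).eq, mul_assoc,
      hYY _ (he1 s 2), mul_one, hYY _ (he1 s 0)]
  have hXY' : ∀ s, X' s * Y' s = Z * (Y' s * X' s) := by
    intro s
    simp only [hX', hY']
    have c1 : Commute (X (e s 1)) (Y (e s 0) * Y (e s 2)) :=
      (hXYc _ (he1 s 1) _ (he1 s 0) (hne (Or.inr (by decide)))).mul_right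
        (hXYc _ (he1 s 1) _ (he1 s 2) (hne (Or.inr (by decide))))
    have c2 : Commute (X (e s 0)) (Y (e s 2)) :=
      hXYc _ (he1 s 0) _ (he1 s 2) (hne (Or.inr (by decide)))
    rw [mul_assoc, c1.eq, ← mul_assoc, ← mul_assoc, hXY _ (he1 s 0)]
    simp only [mul_assoc]
    rw [← mul_assoc (X (e s 0)) (Y (e s 2)), c2.eq]
    simp only [mul_assoc]
  have hXX'c : ∀ s s', Commute (X' s) (X' s') := fun s s' =>
    ((hXXc _ (he1 s 0) _ (he1 s' 0)).mul_right (hXXc _ (he1 s 0) _ (he1 s' 1))).mul_left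
      ((hXXc _ (he1 s 1) _ (he1 s' 0)).mul_right (hXXc _ (he1 s 1) _ (he1 s' 1)))
  have hXY'c : ∀ s s', s ≠ s' → Commute (X' s) (Y' s') := fun s s' h =>
    ((hXYc _ (he1 s 0) _ (he1 s' 0) (hne (Or.inl h))).mul_right
      (hXYc _ (he1 s 0) _ (he1 s' 2) (hne (Or.inl h)))).mul_left
      ((hXYc _ (he1 s 1) _ (he1 s' 0) (hne (Or.inl h))).mul_right
        (hXYc _ (he1 s 1) _ (he1 s' 2) (hne (Or.inl h))))
  have hZX' : ∀ s, Commute Z (X' s) := fun s =>
    (hZX _ (he1 s 0)).mul_right (hZX _ (he1 s 1))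
  have hZY' : ∀ s, Commute Z (Y' s) := fun s =>
    (hZY _ (he1 s 0)).mul_right (hZY _ (he1 s 2))
  have hZK : Z ∈ K := by
    have s0 : Fin T := ⟨0, hT⟩
    have h1 : Z = X' s0 * Y' s0 * (Y' s0 * X' s0)⁻¹ := by
      rw [hXY', mul_inv_cancel_right]
    rw [h1]
    exact K.mul_mem (K.mul_mem (hX'K _) (hY'K _)) (K.inv_mem (K.mul_mem (hY'K _) (hX'K _)))
  have hfinK : Finite K := by
    have h1 : (K : Set (Equiv.Perm M)).Finite := Set.Finite.subset hfin fun g hg => hKQ hg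
    exact h1
  have hsmooth : ∀ g : K, ContMDiff (𝓡 d) (𝓡 d) 1 (K.subtype g) := fun g =>
    hD _ (hQr (hKQ g.2))
  have hfix : ∀ g : K, K.subtype g x = x := by
    rintro ⟨_, ⟨g, hg, rfl⟩⟩
    exact hg
  obtain ⟨L, hL⟩ := lin K.subtype hsmooth x hfix
  by_contra hneZ
  set Lq : Equiv.Perm M → Module.End ℝ (EuclideanSpace ℝ (Fin d)) :=
    fun g => if h : g ∈ K then L ⟨g, h⟩ else 0 with hLq
  have hLe : ∀ g (h : g ∈ K), Lq g = L ⟨g, h⟩ := fun g h => dif_pos h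
  have hmul : ∀ g ∈ K, ∀ h ∈ K, ∀ w, Lq g (Lq h w) = Lq (g * h) w := by
    intro g hg h hh w
    rw [hLe g hg, hLe h hh, hLe _ (K.mul_mem hg hh), ← Module.End.mul_apply, ← map_mul]
    rfl
  have hone : ∀ w, Lq 1 w = w := by
    intro w
    rw [hLe 1 K.one_mem]
    have : (⟨1, K.one_mem⟩ : K) = 1 := rfl
    rw [this, map_one]
    rfl
  have hLZ : Lq Z ≠ 1 := by
    intro h
    rw [hLe Z hZK] at h
    exact hneZ (hL ⟨Z, hZK⟩ h)
  set W : Submodule ℝ (EuclideanSpace ℝ (Fin d)) := LinearMap.ker (Lq Z + 1) with hW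
  have hWm : ∀ w, w ∈ W ↔ Lq Z w = -w := by
    intro w
    rw [hW, LinearMap.mem_ker]
    show Lq Z w + w = 0 ↔ _
    exact add_eq_zero_iff_eq_neg
  have hWne : W ≠ ⊥ := by
    intro h
    apply hLZ
    apply LinearMap.ext
    intro v
    have h1 : Lq Z v - v ∈ W := by
      rw [hWm, map_sub, hmul Z hZK Z hZK, hZZ, hone]
      abel
    rw [h, Submodule.mem_bot] at h1
    exact sub_eq_zero.1 h1
  have hWi : ∀ g ∈ K, Commute Z g → ∀ w ∈ W, Lq g w ∈ W := by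
    intro g hg hc w hw
    rw [hWm, hmul Z hZK g hg, hc.eq, ← hmul g hg Z hZK, (hWm w).1 hw, map_neg]
  have hdim := heis_dim (fun c => Lq (X' c)) (fun c => Lq (Y' c)) (Finset.univ : Finset (Fin T)) W
    hWne
    (fun c _ => hWi _ (hX'K c) (hZX' c)) (fun c _ => hWi _ (hY'K c) (hZY' c))
    (fun c _ w _ => by
      show Lq (X' c) (Lq (X' c) w) = w
      rw [hmul _ (hX'K c) _ (hX'K c), hXX' c, hone])
    (fun c _ w _ => by
      show Lq (Y' c) (Lq (Y' c) w) = w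
      rw [hmul _ (hY'K c) _ (hY'K c), hYY' c, hone])
    (fun c _ w hw => by
      show Lq (X' c) (Lq (Y' c) w) = -Lq (Y' c) (Lq (X' c) w)
      rw [hmul _ (hX'K c) _ (hY'K c), hXY' c,
        ← hmul _ hZK _ (K.mul_mem (hY'K c) (hX'K c)), ← hmul _ (hY'K c) _ (hX'K c)]
      exact (hWm _).1 (hWi _ (hY'K c) (hZY' c) _ (hWi _ (hX'K c) (hZX' c) w hw)))
    (fun c _ c' _ hcc w _ => by
      constructor
      · show Lq (X' c) (Lq (X' c') w) = Lq (X' c') (Lq (X' c) w)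
        rw [hmul _ (hX'K c) _ (hX'K c'), hmul _ (hX'K c') _ (hX'K c),
          (hXX'c c c').eq]
      · show Lq (X' c) (Lq (Y' c') w) = Lq (Y' c') (Lq (X' c) w)
        rw [hmul _ (hX'K c) _ (hY'K c'), hmul _ (hY'K c') _ (hX'K c),
          (hXY'c c c' hcc).eq])
  have h1 := Submodule.finrank_le W
  rw [finrank_euclideanSpace_fin] at h1
  rw [Finset.card_univ, Fintype.card_fin] at hdim
  omega

end Pool.Agent.X183.NZ
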