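import Pool.Agent.X183.ZM.Lin
import Pool.Agent.X183.ZM.Grp

/-!
# Finite groups with small orbits
-/

set_option autoImplicit false

open Module

namespace Pool.Agent.X183.NZ

open Pool.Agent.X183.ZM

/-- Every finite `2`-subgroup of `D` has an orbit with at most `2 ^ k` points. -/
def SmallOrbit (k : ℕ) {M : Type} (D : Subgroup (Equiv.Perm M)) : Prop :=
  ∀ Q : Subgroup (Equiv.Perm M), Q ≤ D → Finite Q → IsPGroup 2 Q →
    ∃ x, {y | ∃ g ∈ Q, g x = y}.ncard ≤ 2 ^ k

variable {M : Type} {G : Type} [Group G]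

/-- the orbit of `x` -/
def Orb (β : G →* Equiv.Perm M) (x : M) : Set M := Set.range fun g => β g x

theorem bm (β : G →* Equiv.Perm M) (g h : G) (y : M) : β (g * h) y = β g (β h y) := by
  rw [map_mul]; rfl

/-- the stabiliser of `x` -/
def St (β : G →* Equiv.Perm M) (x : M) : Subgroup G where
  carrier := {g | β g x = x}
  one_mem' := by
    show β 1 x = x
    rw [map_one]; rfl
  mul_mem' := by
    intro g h hg hh
    show β (g * h) x = x
    rw [bm, show β h x = x from hh, show β g x = x from hg]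
  inv_mem' := by
    intro g hg
    show β g⁻¹ x = x
    have h1 : β g x = x := hg
    conv_lhs => rw [← h1, ← bm, inv_mul_cancel, map_one]
    rfl

theorem mem_St {β : G →* Equiv.Perm M} {x : M} {g : G} : g ∈ St β x ↔ β g x = x := Iff.rfl

theorem inv_mul_St {β : G →* Equiv.Perm M} {x : M} {g h : G} (e : β g x = β h x) :
    h⁻¹ * g ∈ St β x := by
  rw [mem_St, bm, e, ← bm, inv_mul_cancel, map_one]
  rfl

theorem exists_small {k : ℕ} {D : Subgroup (Equiv.Perm M)} (hD : SmallOrbit k D) [Finite G]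
    (hp : IsPGroup 2 G) (β : G →* Equiv.Perm M) (hβ : ∀ g, β g ∈ D) :
    ∃ x, Finite (Orb β x) ∧ Nat.card (Orb β x) ≤ 2 ^ k := by
  obtain ⟨x, hx⟩ := hD β.range (by rintro _ ⟨g, rfl⟩; exact hβ g)
    (Finite.of_surjective _ β.rangeRestrict_surjective)
    (hp.of_surjective _ β.rangeRestrict_surjective)
  have e : {y | ∃ g ∈ β.range, g x = y} = Orb β x := by
    ext y
    constructor
    · rintro ⟨_, ⟨g, rfl⟩, h⟩
      exact ⟨g, h⟩
    · rintro ⟨g, h⟩
      exact ⟨_, ⟨g, rfl⟩, h⟩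
  rw [e] at hx
  refine ⟨x, Set.finite_coe_iff.2 (Set.finite_range _), ?_⟩
  rw [Nat.card_coe_set_eq]
  exact hx

/-- the stabiliser acts linearly -/
theorem lin_st {d : ℕ} [TopologicalSpace M] [ChartedSpace (EuclideanSpace ℝ (Fin d)) M]
    [T2Space M] [ConnectedSpace M] [Finite G] (β : G →* Equiv.Perm M)
    (hβ : ∀ g, ContMDiff (modelWithCornersSelf ℝ (EuclideanSpace ℝ (Fin d)))
      (modelWithCornersSelf ℝ (EuclideanSpace ℝ (Fin d))) 1 (β g)) (x : M) :
    ∃ L : St β x →* Module.End ℝ (EuclideanSpace ℝ (Fin d)),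
      ∀ g : St β x, L g = 1 → β g = 1 :=
  lin (β.comp (St β x).subtype) (fun g => hβ g) x fun g => g.2

end Pool.Agent.X183.NZ
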