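import Pool.Agent.X183.IM.Odd
import Pool.Agent.X183.NZ.Orb

/-!
# The signed number of critical points
-/

open scoped Topology ContDiff Manifold
open Set Filter

set_option autoImplicit false
set_option linter.unusedSectionVars false

noncomputable section

namespace Pool.Agent.X183.NZ

open Pool.Agent.H718R2.G Pool.Agent.Y504.CO Pool.Agent.Y318.MN Pool.Agent.X183.ZM
  Pool.Agent.X183.IM

/-- The matrix of the second derivatives of `f` at `x` in the preferred chart at `x`. -/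
def hessM (d : ℕ) {M : Type} [TopologicalSpace M] [ChartedSpace (EuclideanSpace ℝ (Fin d)) M]
    (f : M → ℝ) (x : M) : Matrix (Fin d) (Fin d) ℝ :=
  Matrix.of fun i j => fderiv ℝ (fderiv ℝ fun w =>
    f ((chartAt (EuclideanSpace ℝ (Fin d)) x).symm w)) (chartAt (EuclideanSpace ℝ (Fin d)) x x)
      (EuclideanSpace.single i 1) (EuclideanSpace.single j 1)

/-- The sign of the determinant of the matrix of the second derivatives. At a nondegenerate critical
point this is `(-1) ^ index`. -/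
def cSign (d : ℕ) {M : Type} [TopologicalSpace M] [ChartedSpace (EuclideanSpace ℝ (Fin d)) M]
    (f : M → ℝ) (x : M) : ℤ := (SignType.sign (hessM d f x).det : ℤ)

/-- No Morse function on `M` has a signed number of critical points which is divisible by `m`. For
a closed manifold the signed number of critical points is the Euler characteristic. -/
def EulerNotDvd (d : ℕ) (M : Type) [TopologicalSpace M]
    [ChartedSpace (EuclideanSpace ℝ (Fin d)) M] (m : ℤ) : Prop :=
  ∀ f : M → ℝ, Morse d f → ¬ m ∣ ∑ᶠ x ∈ {x : M | Crit d f x}, cSign d f x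

section mat

variable {d : ℕ}

/-- the standard basis -/
abbrev eb (i : Fin d) : EuclideanSpace ℝ (Fin d) := EuclideanSpace.single i (1 : ℝ)

theorem sum_coord (v : EuclideanSpace ℝ (Fin d)) : v = ∑ k, v k • eb k := by
  have h := (EuclideanSpace.basisFun (Fin d) ℝ).sum_repr v
  conv_lhs => rw [← h]
  refine Finset.sum_congr rfl fun k _ => ?_
  rw [EuclideanSpace.basisFun_apply, EuclideanSpace.basisFun_repr]

/-- the matrix of a linear map -/
def mt (A : EuclideanSpace ℝ (Fin d) →L[ℝ] EuclideanSpace ℝ (Fin d)) : Matrix (Fin d) (Fin d) ℝ :=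
  Matrix.of fun k i => A (eb i) k

theorem mt_comp (A B : EuclideanSpace ℝ (Fin d) →L[ℝ] EuclideanSpace ℝ (Fin d)) :
    mt (A.comp B) = mt A * mt B := by
  ext k i
  rw [Matrix.mul_apply]
  show (A (B (eb i))) k = ∑ j, A (eb j) k * B (eb i) j
  conv_lhs => rw [sum_coord (B (eb i)), map_sum]
  simp only [map_smul, WithLp.ofLp_sum, WithLp.ofLp_smul, Finset.sum_apply, Pi.smul_apply,
    smul_eq_mul]
  exact Finset.sum_congr rfl fun j _ => mul_comm _ _

theorem mt_id : mt (ContinuousLinearMap.id ℝ (EuclideanSpace ℝ (Fin d))) = 1 := by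
  ext k i
  show (eb i) k = _
  rw [Matrix.one_apply]
  simp

theorem bil_comp (B : EuclideanSpace ℝ (Fin d) →L[ℝ] EuclideanSpace ℝ (Fin d) →L[ℝ] ℝ)
    (A : EuclideanSpace ℝ (Fin d) →L[ℝ] EuclideanSpace ℝ (Fin d)) :
    (Matrix.of fun i j => B (A (eb i)) (A (eb j))) =
      (mt A).transpose * (Matrix.of fun i j => B (eb i) (eb j)) * mt A := by
  ext i j
  rw [Matrix.mul_apply]
  simp only [Matrix.mul_apply, Matrix.transpose_apply, Matrix.of_apply]
  conv_lhs => rw [sum_coord (A (eb i)), sum_coord (A (eb j))]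
  simp only [map_sum, map_smul, sum_apply, smul_apply,
    smul_eq_mul]
  refine Finset.sum_congr rfl fun l _ => ?_
  rw [Finset.mul_sum, Finset.sum_mul]
  refine Finset.sum_congr rfl fun k _ => ?_
  show _ = A (eb i) k * B (eb k) (eb l) * A (eb j) l
  ring

theorem sign_det (B : EuclideanSpace ℝ (Fin d) →L[ℝ] EuclideanSpace ℝ (Fin d) →L[ℝ] ℝ)
    {A A' : EuclideanSpace ℝ (Fin d) →L[ℝ] EuclideanSpace ℝ (Fin d)}
    (h : A'.comp A = ContinuousLinearMap.id ℝ _) :
    SignType.sign (Matrix.of fun i j => B (A (eb i)) (A (eb j))).det =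
      SignType.sign (Matrix.of fun i j => B (eb i) (eb j)).det := by
  have h1 : (mt A).det ≠ 0 := by
    intro h0
    have h2 := congrArg (fun X => (mt X).det) h
    simp only [mt_comp, mt_id, Matrix.det_mul, h0, mul_zero, Matrix.det_one] at h2
    exact zero_ne_one h2
  rw [bil_comp, Matrix.det_mul, Matrix.det_mul, Matrix.det_transpose]
  have h2 : (mt A).det * (Matrix.of fun i j => B (eb i) (eb j)).det * (mt A).det =
      ((mt A).det * (mt A).det) * (Matrix.of fun i j => B (eb i) (eb j)).det := by ring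
  rw [h2, sign_mul, sign_pos (mul_self_pos.2 h1), one_mul]

end mat

/-- the second derivative of a composition at a critical point -/
theorem hess_change {E : Type} [NormedAddCommGroup E] [NormedSpace ℝ E] {g : E → ℝ} {φ : E → E}
    {u : E} (hg : ContDiffAt ℝ 2 g (φ u)) (hφ : ContDiffAt ℝ 2 φ u) (h0 : fderiv ℝ g (φ u) = 0)
    (v w : E) : fderiv ℝ (fderiv ℝ (g ∘ φ)) u v w =
      fderiv ℝ (fderiv ℝ g) (φ u) (fderiv ℝ φ u v) (fderiv ℝ φ u w) := by
  have hφ1 : DifferentiableAt ℝ φ u := hφ.differentiableAt (by norm_num)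
  have hev : fderiv ℝ (g ∘ φ) =ᶠ[𝓝 u] fun w => (fderiv ℝ g (φ w)).comp (fderiv ℝ φ w) := by
    have h1 : ∀ᶠ w in 𝓝 u, ContDiffAt ℝ 2 φ w := hφ.eventually (by simp)
    have h2 : ∀ᶠ w in 𝓝 u, ContDiffAt ℝ 2 g (φ w) :=
      hφ1.continuousAt.eventually (hg.eventually (by simp))
    filter_upwards [h1, h2] with w k1 k2
    exact fderiv_comp w (k2.differentiableAt (by norm_num)) (k1.differentiableAt (by norm_num))
  rw [hev.fderiv_eq]
  have hd1 : DifferentiableAt ℝ (fderiv ℝ g) (φ u) :=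
    (hg.fderiv_right (m := 1) (by norm_num)).differentiableAt (by norm_num)
  have hd2 : DifferentiableAt ℝ (fderiv ℝ φ) u :=
    (hφ.fderiv_right (m := 1) (by norm_num)).differentiableAt (by norm_num)
  have h1 : HasFDerivAt (fun w => fderiv ℝ g (φ w)) ((fderiv ℝ (fderiv ℝ g) (φ u)).comp
      (fderiv ℝ φ u)) u := HasFDerivAt.comp u hd1.hasFDerivAt hφ1.hasFDerivAt
  have h2 := (h1.clm_comp hd2.hasFDerivAt).fderiv
  rw [h2, h0]
  simp

variable {n : ℕ} {N : Type} [TopologicalSpace N] [T2Space N]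
  [ChartedSpace (V n) N] [IsManifold (𝓡 n) ∞ N]

theorem trans_cd' {χ ψ : OpenPartialHomeomorph N (V n)}
    (hχ : χ ∈ IsManifold.maximalAtlas (𝓡 n) ∞ N) (hψ : ψ ∈ IsManifold.maximalAtlas (𝓡 n) ∞ N)
    {g : N → N} (hg : ContMDiff (𝓡 n) (𝓡 n) ∞ g)
    {p : N} (hp : p ∈ χ.source) (hp' : g p ∈ ψ.source) :
    ContDiffAt ℝ ∞ (fun w => ψ (g (χ.symm w))) (χ p) := by
  rw [← contMDiffAt_iff_contDiffAt]
  have hv : χ p ∈ χ.target := χ.map_source hp
  have h2 : ContMDiffAt (𝓡 n) (𝓡 n) ∞ χ.symm (χ p) :=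
    (contMDiffOn_symm_of_mem_maximalAtlas hχ _ hv).contMDiffAt (χ.open_target.mem_nhds hv)
  have h3 : ContMDiffAt (𝓡 n) (𝓡 n) ∞ ψ (g (χ.symm (χ p))) := by
    rw [χ.left_inv hp]
    exact (contMDiffOn_of_mem_maximalAtlas hψ _ hp').contMDiffAt (ψ.open_source.mem_nhds hp')
  exact (h3.comp (χ.symm (χ p)) (hg.contMDiffAt (x := χ.symm (χ p)))).comp (χ p) h2

/-- the sign is invariant under symmetries -/
theorem cSign_inv {f : N → ℝ} (hf : ContMDiff (𝓡 n) 𝓘(ℝ, ℝ) ∞ f) {g : Equiv.Perm N}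
    (hg : ContMDiff (𝓡 n) (𝓡 n) ∞ g) (hg' : ContMDiff (𝓡 n) (𝓡 n) ∞ g.symm)
    (hfg : ∀ x, f (g x) = f x) {x : N} (hx : IsCrit n f (g x)) :
    cSign n f (g x) = cSign n f x := by
  have hle : (2 : WithTop ℕ∞) ≤ ∞ := WithTop.coe_le_coe.2 (le_top : (2 : ℕ∞) ≤ ⊤)
  set χ := chartAt (V n) x with hχd
  set ψ := chartAt (V n) (g x) with hψd
  have hχ : χ ∈ IsManifold.maximalAtlas (𝓡 n) ∞ N := IsManifold.chart_mem_maximalAtlas x
  have hψ : ψ ∈ IsManifold.maximalAtlas (𝓡 n) ∞ N := IsManifold.chart_mem_maximalAtlas (g x)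
  have hxs : x ∈ χ.source := mem_chart_source (V n) x
  have hgs : g x ∈ ψ.source := mem_chart_source (V n) (g x)
  set G : V n → V n := fun w => ψ (g (χ.symm w)) with hG
  set G' : V n → V n := fun w => χ (g.symm (ψ.symm w)) with hG'
  have hGx : G (χ x) = ψ (g x) := by
    simp only [hG]
    rw [χ.left_inv hxs]
  have hGc : ContDiffAt ℝ ∞ G (χ x) := trans_cd' hχ hψ hg hxs hgs
  have hG'c : ContDiffAt ℝ ∞ G' (ψ (g x)) := trans_cd' hψ hχ hg' hgs (by
    rw [Equiv.symm_apply_apply]; exact hxs)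
  have k3 : ∀ᶠ w in 𝓝 (χ x), g (χ.symm w) ∈ ψ.source := by
    have h1 : Tendsto (fun w => g (χ.symm w)) (𝓝 (χ x)) (𝓝 (g x)) := by
      have h2 := χ.continuousAt_symm (χ.map_source hxs)
      rw [ContinuousAt, χ.left_inv hxs] at h2
      exact (hg.continuous.tendsto x).comp h2
    exact h1.eventually (ψ.open_source.mem_nhds hgs)
  have hinv : (fderiv ℝ G' (ψ (g x))).comp (fderiv ℝ G (χ x)) =
      ContinuousLinearMap.id ℝ (V n) := by
    have k1 : G' ∘ G =ᶠ[𝓝 (χ x)] id := by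
      filter_upwards [χ.open_target.mem_nhds (χ.map_source hxs), k3] with w hw1 hw2
      show χ (g.symm (ψ.symm (ψ (g (χ.symm w))))) = w
      rw [ψ.left_inv hw2, Equiv.symm_apply_apply, χ.right_inv hw1]
    have k4 : HasFDerivAt (G' ∘ G) ((fderiv ℝ G' (ψ (g x))).comp (fderiv ℝ G (χ x))) (χ x) := by
      apply HasFDerivAt.comp
      · rw [hGx]
        exact (hG'c.differentiableAt (by simp)).hasFDerivAt
      · exact (hGc.differentiableAt (by simp)).hasFDerivAt
    have k5 : HasFDerivAt (G' ∘ G) (ContinuousLinearMap.id ℝ (V n)) (χ x) :=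
      (hasFDerivAt_id (χ x)).congr_of_eventuallyEq k1
    exact k4.unique k5
  have hev : (fun w => f (χ.symm w)) =ᶠ[𝓝 (χ x)] (fun w => f (ψ.symm w)) ∘ G := by
    filter_upwards [k3] with w hw
    show f (χ.symm w) = f (ψ.symm (ψ (g (χ.symm w))))
    rw [ψ.left_inv hw, hfg]
  have hH : ∀ v w, fderiv ℝ (fderiv ℝ fun w => f (χ.symm w)) (χ x) v w =
      fderiv ℝ (fderiv ℝ fun w => f (ψ.symm w)) (ψ (g x)) (fderiv ℝ G (χ x) v)
        (fderiv ℝ G (χ x) w) := by
    intro v w
    rw [hev.fderiv.fderiv_eq, hess_change (g := fun w => f (ψ.symm w)) (φ := G) (u := χ x)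
      ?_ (hGc.of_le hle) ?_ v w, hGx]
    · rw [hGx]
      exact (chart_cd hf hψ (ψ.map_source hgs)).of_le hle
    · rw [hGx]
      exact (crit_iff hf hψ hgs).1 hx
  unfold cSign
  congr 1
  have e1 : hessM n f x = Matrix.of fun i j =>
      fderiv ℝ (fderiv ℝ fun w => f (ψ.symm w)) (ψ (g x))
        (fderiv ℝ G (χ x) (EuclideanSpace.single i 1))
        (fderiv ℝ G (χ x) (EuclideanSpace.single j 1)) := by
    ext i j
    exact hH _ _
  rw [e1]
  exact (sign_det _ hinv).symm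

end Pool.Agent.X183.NZ
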