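import Pool.Agent.X183.NZ.Dstep
import Pool.Agent.X183.NZ.Hstep

/-!
# Actions with small orbits: the main theorem
-/

set_option autoImplicit false

open scoped Manifold ContDiff Topology
open Module

namespace Pool.Agent.X183.NZ

open Pool.Agent.X183.ZM

variable {n : ℕ} {R : Type} [Ring R] {d : ℕ} {M : Type} [TopologicalSpace M]
  [T2Space M] [ConnectedSpace M] [ChartedSpace (EuclideanSpace ℝ (Fin d)) M]

theorem El_mem' {Γ : Subgroup (Matrix (Fin n) (Fin n) R)ˣ} (hΓ : EG n R ≤ Γ) (i j : Fin n)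
    (h : i ≠ j) (x : R) : El i j h x ∈ Γ := hΓ (El_EG i j h x)

/-- **First step**: the elementary matrices with even entries act trivially. -/
theorem step_even' [Finite Rˣ] (h4 : ∀ u : Rˣ, u ^ 4 = 1) {κ t : ℕ} (ht : 1 ≤ t)
    {u : Fin t → Rˣ} (hu : Fam κ t u) {k : ℕ} (hn : 3 ≤ n)
    (hd : d < κ * (n - 1 - (2 ^ k) ^ t))
    {Γ : Subgroup (Matrix (Fin n) (Fin n) R)ˣ} (hΓ : EG n R ≤ Γ) (α : Γ →* Equiv.Perm M)
    (hα : ∀ g, ContMDiff (𝓡 d) (𝓡 d) 1 (α g)) (hM : SmallOrbit k α.range)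
    (i j : Fin n) (hij : i ≠ j) (x : R) :
    α ⟨El i j hij (2 * x), El_mem' hΓ _ _ _ _⟩ = 1 := by
  obtain ⟨S, hSm, ⟨a, b, ha, hb⟩, hS⟩ := sign_trivial h4 ht hu (by omega) hd hΓ α hα hM
  have hab : a ≠ b := by
    rintro rfl
    exact hb ha
  refine even_all (El_mem' hΓ) α hn hab ?_ i j hij x
  intro z
  have e := Dg_El (sg S) hab z
  have ea : (sg (R := R) S a : Rˣ) = 1 := if_pos ha
  have eb : (sg (R := R) S b : Rˣ) = -1 := if_neg hb
  rw [ea, eb, Units.val_one, one_mul, inv_neg, inv_one, Units.val_neg, Units.val_one,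
    mul_neg, mul_one] at e
  have e2 : (⟨Dg (sg S), hSm⟩ : Γ) * ⟨El a b hab z, El_mem' hΓ _ _ _ _⟩ =
      ⟨El a b hab (-z), El_mem' hΓ _ _ _ _⟩ * ⟨Dg (sg S), hSm⟩ := Subtype.ext e
  have e3 := congrArg α e2
  rw [map_mul, map_mul, hS, one_mul, mul_one] at e3
  have e4 : (⟨El a b hab (2 * z), El_mem' hΓ _ _ _ _⟩ : Γ) =
      ⟨El a b hab z, El_mem' hΓ _ _ _ _⟩ * ⟨El a b hab z, El_mem' hΓ _ _ _ _⟩ := by
    apply Subtype.ext
    show El a b hab (2 * z) = El a b hab z * El a b hab z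
    rw [← El_add, two_mul]
  have e5 : (⟨El a b hab z, El_mem' hΓ _ _ _ _⟩ : Γ) * ⟨El a b hab (-z), El_mem' hΓ _ _ _ _⟩ = 1 := by
    apply Subtype.ext
    show El a b hab z * El a b hab (-z) = 1
    rw [← El_add, add_neg_cancel, El_zero]
  have e6 := congrArg α e5
  rw [map_mul, map_one, ← e3] at e6
  rw [e4, map_mul]
  exact e6

/-- **Second step.** -/
theorem step_all' {k T : ℕ} (hT : 1 ≤ T) (hn : 3 * T + 2 * (2 ^ k) ^ 2 + 2 ≤ n)
    (hd : d < 2 ^ T)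
    {Γ : Subgroup (Matrix (Fin n) (Fin n) R)ˣ} (hΓ : EG n R ≤ Γ) (α : Γ →* Equiv.Perm M)
    (hα : ∀ g, ContMDiff (𝓡 d) (𝓡 d) 1 (α g)) (hM : SmallOrbit k α.range)
    (heven : ∀ (i j : Fin n) (hij : i ≠ j) (x : R),
      α ⟨El i j hij (2 * x), El_mem' hΓ _ _ _ _⟩ = 1) (p q : Fin n) (hpq : p ≠ q) (x : R) :
    α ⟨El p q hpq x, El_mem' hΓ _ _ _ _⟩ = 1 := by
  classical
  set A : ∀ (i j : Fin n), i ≠ j → R → Equiv.Perm M :=
    fun i j h z => α ⟨El i j h z, El_mem' hΓ _ _ _ _⟩ with hA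
  have hAA : ∀ i j h z, A i j h z * A i j h z = 1 := by
    intro i j h z
    rw [← heven i j h z]
    simp only [hA]
    rw [← map_mul]
    congr 1
    apply Subtype.ext
    show El i j h z * El i j h z = El i j h (2 * z)
    rw [← El_add, two_mul]
  have hAc : ∀ {i j k l : Fin n} (h : i ≠ j) (h' : k ≠ l) (_ : j ≠ k) (_ : l ≠ i) (y z : R),
      A i j h y * A k l h' z = A k l h' z * A i j h y := by
    intro i j k l h h' h1 h2 y z
    simp only [hA]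
    rw [← map_mul, ← map_mul]
    congr 1
    exact Subtype.ext (El_comm h h' h1 h2 y z)
  have hA3 : ∀ {i j k : Fin n} (h : i ≠ j) (h' : j ≠ k) (h'' : i ≠ k) (y z : R),
      A i j h y * A j k h' z = A i k h'' (y * z) * (A j k h' z * A i j h y) := by
    intro i j k h h' h'' y z
    simp only [hA]
    rw [← map_mul, ← map_mul, ← map_mul]
    congr 1
    exact Subtype.ext (El_comm3 h h' h'' y z)
  have hAD : ∀ i j h z, A i j h z ∈ α.range := fun i j h z => ⟨_, rfl⟩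
  set Z := A p q hpq x with hZ
  set X : Fin n → Equiv.Perm M := fun c => if h : p ≠ c then A p c h x else 1 with hX
  set Y : Fin n → Equiv.Perm M := fun c => if h : c ≠ q then A c q h 1 else 1 with hY
  set C : Finset (Fin n) := Finset.univ.filter fun c => p ≠ c ∧ c ≠ q with hC
  have hXe : ∀ c (h : p ≠ c), X c = A p c h x := fun c h => dif_pos h
  have hYe : ∀ c (h : c ≠ q), Y c = A c q h 1 := fun c h => dif_pos h
  have hCm : ∀ c, c ∈ C ↔ p ≠ c ∧ c ≠ q := fun c => by simp [hC]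
  have hCcard : n - 2 ≤ C.card := by
    have h1 : C = (Finset.univ.erase p).erase q := by
      ext c
      rw [hCm, Finset.mem_erase, Finset.mem_erase]
      simp only [Finset.mem_univ, and_true]
      exact ⟨fun h => ⟨h.2, h.1.symm⟩, fun h => ⟨h.2.symm, h.1⟩⟩
    rw [h1, Finset.card_erase_of_mem (by simp [hpq.symm]), Finset.card_erase_of_mem (by simp),
      Finset.card_univ, Fintype.card_fin]
    omega
  refine heis_core (D := α.range) (by rintro _ ⟨g, rfl⟩; exact hα g) hM Z X Y C (hAD _ _ _ _)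
    ?_ ?_ (hAA _ _ _ _) ?_ ?_ ?_ ?_ ?_ ?_ ?_ ?_ hT (by omega) hd
  · intro c hc
    rw [hXe c ((hCm c).1 hc).1]
    exact hAD _ _ _ _
  · intro c hc
    rw [hYe c ((hCm c).1 hc).2]
    exact hAD _ _ _ _
  · intro c hc
    rw [hXe c ((hCm c).1 hc).1]
    exact hAA _ _ _ _
  · intro c hc
    rw [hYe c ((hCm c).1 hc).2]
    exact hAA _ _ _ _
  · intro c hc
    rw [hXe c ((hCm c).1 hc).1]
    exact hAc hpq _ hpq.symm ((hCm c).1 hc).1.symm _ _
  · intro c hc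
    rw [hYe c ((hCm c).1 hc).2]
    exact hAc hpq _ ((hCm c).1 hc).2.symm hpq.symm _ _
  · intro c hc c' hc'
    rw [hXe c ((hCm c).1 hc).1, hXe c' ((hCm c').1 hc').1]
    exact hAc _ _ ((hCm c).1 hc).1.symm ((hCm c').1 hc').1.symm _ _
  · intro c hc c' hc'
    rw [hYe c ((hCm c).1 hc).2, hYe c' ((hCm c').1 hc').2]
    exact hAc _ _ ((hCm c').1 hc').2.symm ((hCm c).1 hc).2.symm _ _
  · intro c hc c' hc' hne
    rw [hXe c ((hCm c).1 hc).1, hYe c' ((hCm c').1 hc').2]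
    exact hAc _ _ hne hpq.symm _ _
  · intro c hc
    rw [hXe c ((hCm c).1 hc).1, hYe c ((hCm c).1 hc).2, hA3 _ _ hpq, mul_one]

theorem EG_trivial {Γ : Subgroup (Matrix (Fin n) (Fin n) R)ˣ} (hΓ : EG n R ≤ Γ)
    {G : Type*} [Group G] (α : Γ →* G)
    (h : ∀ (i j : Fin n) (hij : i ≠ j) (x : R), α ⟨El i j hij x, El_mem' hΓ _ _ _ _⟩ = 1) :
    ∀ g (hg : g ∈ EG n R), α ⟨g, hΓ hg⟩ = 1 := by
  intro g hg
  unfold EG at hg
  induction hg using Subgroup.closure_induction with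
  | mem g hg =>
    obtain ⟨i, j, hij, x, rfl⟩ := hg
    exact h i j hij x
  | one => exact map_one α
  | mul x y hx hy ihx ihy =>
    have e : (⟨x * y, hΓ (Subgroup.mul_mem _ hx hy)⟩ : Γ) = ⟨x, hΓ hx⟩ * ⟨y, hΓ hy⟩ := rfl
    rw [e, map_mul, ihx, ihy, one_mul]
  | inv x hx ih =>
    have e : (⟨x⁻¹, hΓ (Subgroup.inv_mem _ hx)⟩ : Γ) = ⟨x, hΓ hx⟩⁻¹ := rfl
    rw [e, map_inv, ih, inv_one]

theorem finite_image' {Γ : Subgroup (Matrix (Fin n) (Fin n) R)ˣ} (hΓ : EG n R ≤ Γ)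
    {G : Type*} [Group G] (α : Γ →* G) (h : ∀ g (hg : g ∈ EG n R), α ⟨g, hΓ hg⟩ = 1)
    (hind : (EG n R).relIndex Γ ≠ 0) : (Set.range α).Finite := by
  set H := (EG n R).subgroupOf Γ with hH
  have hfi : Finite (Γ ⧸ H) := Nat.finite_of_card_ne_zero hind
  refine Set.Finite.subset (Set.finite_range fun q : Γ ⧸ H => α q.out) ?_
  rintro _ ⟨γ, rfl⟩
  refine ⟨(γ : Γ ⧸ H), ?_⟩
  have h2 : ((γ : Γ ⧸ H).out)⁻¹ * γ ∈ H := QuotientGroup.eq.1 (Quotient.out_eq' _)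
  have h3 : α (((γ : Γ ⧸ H).out)⁻¹ * γ) = 1 := h _ h2
  rw [map_mul, map_inv] at h3
  exact inv_mul_eq_one.1 h3

/-- **Main theorem.** -/
theorem main' [Finite Rˣ] (h4 : ∀ u : Rˣ, u ^ 4 = 1) {κ t : ℕ} (ht : 1 ≤ t)
    {u : Fin t → Rˣ} (hu : Fam κ t u) {k T : ℕ} (hT : 1 ≤ T)
    (hn : 3 * T + 2 * (2 ^ k) ^ 2 + 2 ≤ n) (hd2 : d < 2 ^ T)
    (hd : d < κ * (n - 1 - (2 ^ k) ^ t))
    {Γ : Subgroup (Matrix (Fin n) (Fin n) R)ˣ} (hΓ : EG n R ≤ Γ) (α : Γ →* Equiv.Perm M)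
    (hα : ∀ g, ContMDiff (𝓡 d) (𝓡 d) 1 (α g)) (hM : SmallOrbit k α.range) :
    (∀ g (hg : g ∈ EG n R), α ⟨g, hΓ hg⟩ = 1) ∧
      ((EG n R).relIndex Γ ≠ 0 → (Set.range α).Finite) := by
  have h0 := step_even' h4 ht hu (by omega) hd hΓ α hα hM
  have h1 := step_all' hT hn hd2 hΓ α hα hM h0
  have h2 := EG_trivial hΓ α h1
  exact ⟨h2, finite_image' hΓ α h2⟩

end Pool.Agent.X183.NZ
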